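import Pool.Agent.CSG.LoopDefs

/-!
# UNQ/Base: smooth families of linear isomorphisms of `R^3` and homotopies of loops

`cp P L` is the pointwise composition `t ↦ P t ∘ L t`, `iv P` the pointwise inverse,
`Hom` the equivalence relation generated by `LoopHom`, `std k` the loop
`z ↦ cmul (exp (2 π i k t)) z` (rotation around `e₀`).
-/

open scoped ContDiff
open Complex (I)

namespace Pool.Agent.UNQ
open Pool.Agent.CSG

section fam
variable {V : Type*} [NormedAddCommGroup V] [NormedSpace ℝ V]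

/-- smoothness of a family of linear isomorphisms, in terms of the space of linear maps -/
theorem fam_iff (P : V → E3 ≃L[ℝ] E3) :
    (ContDiff ℝ ∞ fun q : V × E3 => P q.1 q.2) ↔
      ContDiff ℝ ∞ (fun v : V => (P v : E3 →L[ℝ] E3)) := by
  constructor
  · intro h
    rw [contDiff_clm_apply_iff]
    intro y
    exact h.comp (contDiff_id.prodMk contDiff_const)
  · intro h
    exact (h.comp contDiff_fst).clm_apply contDiff_snd

theorem fam_comp {P Q : V → E3 ≃L[ℝ] E3} (hP : ContDiff ℝ ∞ fun q : V × E3 => P q.1 q.2)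
    (hQ : ContDiff ℝ ∞ fun q : V × E3 => Q q.1 q.2) :
    ContDiff ℝ ∞ fun q : V × E3 => ((Q q.1).trans (P q.1)) q.2 := by
  have : (fun q : V × E3 => ((Q q.1).trans (P q.1)) q.2) =
      (fun q : V × E3 => P q.1 q.2) ∘ fun q : V × E3 => (q.1, Q q.1 q.2) := by
    ext q; simp
  rw [this]
  exact hP.comp (contDiff_fst.prodMk hQ)

theorem fam_symm {P : V → E3 ≃L[ℝ] E3} (hP : ContDiff ℝ ∞ fun q : V × E3 => P q.1 q.2) :
    ContDiff ℝ ∞ fun q : V × E3 => (P q.1).symm q.2 := by
  rw [fam_iff] at hP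
  refine (fam_iff (fun v => (P v).symm)).2 ?_
  have : (fun v : V => ((P v).symm : E3 →L[ℝ] E3)) =
      fun v : V => ContinuousLinearMap.inverse (P v : E3 →L[ℝ] E3) := by
    funext v
    rw [ContinuousLinearMap.inverse_equiv]
  rw [this, contDiff_iff_contDiffAt]
  intro v
  exact (contDiffAt_map_inverse (P v)).comp v hP.contDiffAt

theorem fam_pre {W : Type*} [NormedAddCommGroup W] [NormedSpace ℝ W]
    {P : V → E3 ≃L[ℝ] E3} (hP : ContDiff ℝ ∞ fun q : V × E3 => P q.1 q.2) {f : W → V}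
    (hf : ContDiff ℝ ∞ f) : ContDiff ℝ ∞ fun q : W × E3 => P (f q.1) q.2 :=
  hP.comp ((hf.comp contDiff_fst).prodMk contDiff_snd)

theorem fam_const (B : E3 ≃L[ℝ] E3) : ContDiff ℝ ∞ fun q : V × E3 => B q.2 :=
  B.contDiff.comp contDiff_snd

end fam

/-- pointwise composition -/
noncomputable def cp (P L : ℝ → E3 ≃L[ℝ] E3) : ℝ → E3 ≃L[ℝ] E3 := fun t => (L t).trans (P t)
/-- pointwise inverse -/
noncomputable def iv (P : ℝ → E3 ≃L[ℝ] E3) : ℝ → E3 ≃L[ℝ] E3 := fun t => (P t).symm
/-- the constant loop `1` -/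
noncomputable def one : ℝ → E3 ≃L[ℝ] E3 := fun _ => ContinuousLinearEquiv.refl ℝ E3

@[simp] theorem cp_apply (P L : ℝ → E3 ≃L[ℝ] E3) (t : ℝ) (z : E3) : cp P L t z = P t (L t z) := rfl
@[simp] theorem iv_apply (P : ℝ → E3 ≃L[ℝ] E3) (t : ℝ) (z : E3) : iv P t z = (P t).symm z := rfl
@[simp] theorem one_apply (t : ℝ) (z : E3) : one t z = z := rfl

theorem cp_assoc (P L K : ℝ → E3 ≃L[ℝ] E3) : cp (cp P L) K = cp P (cp L K) := by
  funext t; ext z; rfl
theorem cp_one (P : ℝ → E3 ≃L[ℝ] E3) : cp P one = P := by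
  funext t; ext z; rfl
theorem one_cp (P : ℝ → E3 ≃L[ℝ] E3) : cp one P = P := by
  funext t; ext z; rfl
theorem iv_cp (P : ℝ → E3 ≃L[ℝ] E3) : cp (iv P) P = one := by
  funext t; ext z; simp
theorem cp_iv (P : ℝ → E3 ≃L[ℝ] E3) : cp P (iv P) = one := by
  funext t; ext z; simp

/-- extensionality -/
theorem loop_ext {P Q : ℝ → E3 ≃L[ℝ] E3} (h : ∀ t z, P t z = Q t z) : P = Q := by
  funext t; ext1; funext z; exact h t z

theorem smooth_cp {P L : ℝ → E3 ≃L[ℝ] E3} (hP : ContDiff ℝ ∞ fun q : ℝ × E3 => P q.1 q.2)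
    (hL : ContDiff ℝ ∞ fun q : ℝ × E3 => L q.1 q.2) :
    ContDiff ℝ ∞ fun q : ℝ × E3 => cp P L q.1 q.2 := fam_comp hP hL

theorem smooth_iv {P : ℝ → E3 ≃L[ℝ] E3} (hP : ContDiff ℝ ∞ fun q : ℝ × E3 => P q.1 q.2) :
    ContDiff ℝ ∞ fun q : ℝ × E3 => iv P q.1 q.2 := fam_symm hP

theorem isLoop_cp {P L : ℝ → E3 ≃L[ℝ] E3} (hP : IsLoop P) (hL : IsLoop L) : IsLoop (cp P L) where
  smooth := smooth_cp hP.smooth hL.smooth
  per t z := by simp [hP.per, hL.per]

theorem isLoop_iv {P : ℝ → E3 ≃L[ℝ] E3} (hP : IsLoop P) : IsLoop (iv P) where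
  smooth := smooth_iv hP.smooth
  per t z := by
    have h : P (t + 1) = P t := by ext1; funext z; exact hP.per t z
    simp [h]

theorem isLoop_one : IsLoop one where
  smooth := by simpa using contDiff_snd
  per t z := rfl

/-- homotopy of loops -/
def Hom (P Q : ℝ → E3 ≃L[ℝ] E3) : Prop := Relation.ReflTransGen LoopHom P Q

theorem Hom.refl (P : ℝ → E3 ≃L[ℝ] E3) : Hom P P := Relation.ReflTransGen.refl
theorem Hom.trans {P Q R : ℝ → E3 ≃L[ℝ] E3} (h : Hom P Q) (h' : Hom Q R) : Hom P R :=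
  Relation.ReflTransGen.trans h h'
theorem Hom.of {P Q : ℝ → E3 ≃L[ℝ] E3} (h : LoopHom P Q) : Hom P Q := Relation.ReflTransGen.single h

theorem loopHom_symm {P Q : ℝ → E3 ≃L[ℝ] E3} (h : LoopHom P Q) : LoopHom Q P := by
  obtain ⟨M, h1, h2, h3, h4⟩ := h
  refine ⟨fun t τ => M t (1 - τ), ?_, fun t τ z => h2 t _ z, fun t z => by simpa using h4 t z,
    fun t z => by simpa using h3 t z⟩
  have : (fun q : ℝ × ℝ × E3 => M q.1 (1 - q.2.1) q.2.2) =
      (fun q : ℝ × ℝ × E3 => M q.1 q.2.1 q.2.2) ∘ fun q : ℝ × ℝ × E3 => (q.1, 1 - q.2.1, q.2.2) := by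
    ext q; rfl
  rw [this]
  exact h1.comp (contDiff_fst.prodMk ((contDiff_const.sub (contDiff_fst.comp contDiff_snd)).prodMk
    (contDiff_snd.comp contDiff_snd)))

theorem Hom.symm {P Q : ℝ → E3 ≃L[ℝ] E3} (h : Hom P Q) : Hom Q P := by
  induction h with
  | refl => exact Hom.refl _
  | tail _ h ih => exact (Hom.of (loopHom_symm h)).trans ih

theorem isLoop_of_loopHom_left {P Q : ℝ → E3 ≃L[ℝ] E3} (h : LoopHom P Q) : IsLoop P := by
  obtain ⟨M, h1, h2, h3, h4⟩ := h
  refine ⟨?_, fun t z => by rw [← h3, ← h3, h2]⟩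
  have : (fun q : ℝ × E3 => P q.1 q.2) =
      (fun q : ℝ × ℝ × E3 => M q.1 q.2.1 q.2.2) ∘ fun q : ℝ × E3 => (q.1, 0, q.2) := by
    ext1 q; exact (h3 _ _).symm
  rw [this]
  exact h1.comp (contDiff_fst.prodMk (contDiff_const.prodMk contDiff_snd))

theorem isLoop_of_loopHom_right {P Q : ℝ → E3 ≃L[ℝ] E3} (h : LoopHom P Q) : IsLoop Q :=
  isLoop_of_loopHom_left (loopHom_symm h)

theorem Hom.isLoop {P Q : ℝ → E3 ≃L[ℝ] E3} (h : Hom P Q) (hP : IsLoop P) : IsLoop Q := by
  induction h with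
  | refl => exact hP
  | tail _ h _ => exact isLoop_of_loopHom_right h

/-- rearrangement of variables for two-parameter families -/
theorem fam2_iff (M : ℝ → ℝ → E3 ≃L[ℝ] E3) :
    (ContDiff ℝ ∞ fun q : ℝ × ℝ × E3 => M q.1 q.2.1 q.2.2) ↔
      ContDiff ℝ ∞ fun q : (ℝ × ℝ) × E3 => M q.1.1 q.1.2 q.2 := by
  constructor
  · intro h
    exact h.comp ((contDiff_fst.comp contDiff_fst).prodMk
      ((contDiff_snd.comp contDiff_fst).prodMk contDiff_snd))
  · intro h
    exact h.comp ((contDiff_fst.prodMk (contDiff_fst.comp contDiff_snd)).prodMk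
      (contDiff_snd.comp contDiff_snd))

theorem loopHom_cp_left {L P Q : ℝ → E3 ≃L[ℝ] E3} (hL : IsLoop L) (h : LoopHom P Q) :
    LoopHom (cp L P) (cp L Q) := by
  obtain ⟨M, h1, h2, h3, h4⟩ := h
  refine ⟨fun t τ => (M t τ).trans (L t), ?_, fun t τ z => by simp [h2, hL.per],
    fun t z => by simp [h3], fun t z => by simp [h4]⟩
  rw [fam2_iff] at h1
  refine (fam2_iff (fun t τ => (M t τ).trans (L t))).2 ?_
  exact fam_comp (P := fun v : ℝ × ℝ => L v.1) (Q := fun v : ℝ × ℝ => M v.1 v.2)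
    (fam_pre hL.smooth contDiff_fst) h1

theorem loopHom_cp_right {L P Q : ℝ → E3 ≃L[ℝ] E3} (hL : IsLoop L) (h : LoopHom P Q) :
    LoopHom (cp P L) (cp Q L) := by
  obtain ⟨M, h1, h2, h3, h4⟩ := h
  refine ⟨fun t τ => (L t).trans (M t τ), ?_, fun t τ z => by simp [h2, hL.per],
    fun t z => by simp [h3], fun t z => by simp [h4]⟩
  rw [fam2_iff] at h1
  refine (fam2_iff (fun t τ => (L t).trans (M t τ))).2 ?_
  exact fam_comp (P := fun v : ℝ × ℝ => M v.1 v.2) (Q := fun v : ℝ × ℝ => L v.1)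
    h1 (fam_pre hL.smooth contDiff_fst)

theorem loopHom_iv {P Q : ℝ → E3 ≃L[ℝ] E3} (h : LoopHom P Q) : LoopHom (iv P) (iv Q) := by
  obtain ⟨M, h1, h2, h3, h4⟩ := h
  have e2 : ∀ t τ, M (t + 1) τ = M t τ := fun t τ => by ext1; funext z; exact h2 t τ z
  have e3 : ∀ t, M t 0 = P t := fun t => by ext1; funext z; exact h3 t z
  have e4 : ∀ t, M t 1 = Q t := fun t => by ext1; funext z; exact h4 t z
  refine ⟨fun t τ => (M t τ).symm, ?_, fun t τ z => by simp [e2],
    fun t z => by simp [e3], fun t z => by simp [e4]⟩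
  rw [fam2_iff] at h1
  refine (fam2_iff (fun t τ => (M t τ).symm)).2 ?_
  exact fam_symm (P := fun v : ℝ × ℝ => M v.1 v.2) h1

theorem Hom.cp_left {L P Q : ℝ → E3 ≃L[ℝ] E3} (hL : IsLoop L) (h : Hom P Q) :
    Hom (cp L P) (cp L Q) := by
  induction h with
  | refl => exact Hom.refl _
  | tail _ h ih => exact ih.trans (Hom.of (loopHom_cp_left hL h))

theorem Hom.cp_right {L P Q : ℝ → E3 ≃L[ℝ] E3} (hL : IsLoop L) (h : Hom P Q) :
    Hom (cp P L) (cp Q L) := by
  induction h with
  | refl => exact Hom.refl _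
  | tail _ h ih => exact ih.trans (Hom.of (loopHom_cp_right hL h))

theorem Hom.iv {P Q : ℝ → E3 ≃L[ℝ] E3} (h : Hom P Q) : Hom (iv P) (iv Q) := by
  induction h with
  | refl => exact Hom.refl _
  | tail _ h ih => exact ih.trans (Hom.of (loopHom_iv h))

/-- `z ↦ cmul c z` as a linear isomorphism -/
noncomputable def rotE (c : ℂ) (hc : c ≠ 0) : E3 ≃L[ℝ] E3 :=
  LinearEquiv.toContinuousLinearEquiv
    { toFun := cmul c
      invFun := cmul c⁻¹
      map_add' := fun x y => by
        ext i; fin_cases i <;> simp [cmul, pt] <;> ring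
      map_smul' := fun r x => by
        ext i; fin_cases i <;> simp [cmul, pt] <;> ring
      left_inv := fun x => by
        have key : ∀ a b : ℝ, c⁻¹ * (((c * (a + b * I)).re : ℂ) + ((c * (a + b * I)).im : ℂ) * I) =
            a + b * I := fun a b => by
          rw [Complex.re_add_im, inv_mul_cancel_left₀ hc]
        ext i; fin_cases i
        · simp [cmul, pt]
        · have := congrArg Complex.re (key (x 1) (x 2))
          simpa [cmul, pt] using this
        · have := congrArg Complex.im (key (x 1) (x 2))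
          simpa [cmul, pt] using this
      right_inv := fun x => by
        have key : ∀ a b : ℝ, c * (((c⁻¹ * (a + b * I)).re : ℂ) + ((c⁻¹ * (a + b * I)).im : ℂ) * I) =
            a + b * I := fun a b => by
          rw [Complex.re_add_im, mul_inv_cancel_left₀ hc]
        ext i; fin_cases i
        · simp [cmul, pt]
        · have := congrArg Complex.re (key (x 1) (x 2))
          simpa [cmul, pt] using this
        · have := congrArg Complex.im (key (x 1) (x 2))
          simpa [cmul, pt] using this }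

@[simp] theorem rotE_apply (c : ℂ) (hc : c ≠ 0) (z : E3) : rotE c hc z = cmul c z := rfl

/-- rotation by `2 π k t` around the axis `e₀` -/
noncomputable def std (k : ℤ) (t : ℝ) : E3 ≃L[ℝ] E3 :=
  rotE (Complex.exp ((2 * Real.pi * k * t : ℝ) * I)) (Complex.exp_ne_zero _)

@[simp] theorem std_apply (k : ℤ) (t : ℝ) (z : E3) :
    std k t z = cmul (Complex.exp ((2 * Real.pi * k * t : ℝ) * I)) z := rfl

theorem contDiff_cmul {V : Type*} [NormedAddCommGroup V] [NormedSpace ℝ V] {c : V → ℂ}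
    {z : V → E3} (hc : ContDiff ℝ ∞ c) (hz : ContDiff ℝ ∞ z) :
    ContDiff ℝ ∞ fun v => cmul (c v) (z v) := by
  have hz' : ∀ i, ContDiff ℝ ∞ fun v => z v i := fun i => by
    have := (contDiff_euclidean.1 hz) i
    exact this
  rw [contDiff_euclidean]
  intro i
  have h1 : ContDiff ℝ ∞ fun v => ((z v 1 : ℝ) : ℂ) := Complex.ofRealCLM.contDiff.comp (hz' 1)
  have h2 : ContDiff ℝ ∞ fun v => ((z v 2 : ℝ) : ℂ) := Complex.ofRealCLM.contDiff.comp (hz' 2)
  have h3 : ContDiff ℝ ∞ fun v => c v * ((z v 1 : ℂ) + (z v 2 : ℂ) * I) :=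
    hc.mul (h1.add (h2.mul contDiff_const))
  fin_cases i
  · simpa [cmul, pt] using hz' 0
  · have := Complex.reCLM.contDiff.comp h3
    simpa [cmul, pt, Function.comp_def] using this
  · have := Complex.imCLM.contDiff.comp h3
    simpa [cmul, pt, Function.comp_def] using this

theorem isLoop_std (k : ℤ) : IsLoop (std k) where
  smooth := by
    refine contDiff_cmul ?_ contDiff_snd
    refine ContDiff.cexp (ContDiff.mul (Complex.ofRealCLM.contDiff.comp ?_) contDiff_const)
    exact contDiff_const.mul contDiff_fst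
  per t z := by
    rw [std_apply, std_apply]
    congr 1
    rw [show ((2 * Real.pi * k * (t + 1) : ℝ) : ℂ) * I =
      ((2 * Real.pi * k * t : ℝ) : ℂ) * I + k * (2 * Real.pi * I) by push_cast; ring]
    rw [Complex.exp_add, Complex.exp_int_mul_two_pi_mul_I, mul_one]

theorem std_zero : std 0 = one := by
  apply loop_ext
  intro t z
  ext i; fin_cases i <;> simp [cmul, pt]

theorem cmul_mul (c d : ℂ) (z : E3) : cmul (c * d) z = cmul c (cmul d z) := by
  have key : ∀ a b : ℝ, c * (((d * (a + b * I)).re : ℂ) + ((d * (a + b * I)).im : ℂ) * I) =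
      c * d * (a + b * I) := fun a b => by rw [Complex.re_add_im, mul_assoc]
  ext i; fin_cases i
  · simp [cmul, pt]
  · have := congrArg Complex.re (key (z 1) (z 2))
    simpa [cmul, pt] using this.symm
  · have := congrArg Complex.im (key (z 1) (z 2))
    simpa [cmul, pt] using this.symm

theorem std_add (k l : ℤ) : std (k + l) = cp (std k) (std l) := by
  apply loop_ext
  intro t z
  rw [cp_apply, std_apply, std_apply, std_apply, ← cmul_mul, ← Complex.exp_add]
  congr 2
  push_cast; ring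

/-- rotation by `θ` in the plane of the first two coordinates -/
noncomputable def rotB (θ : ℝ) : E3 ≃L[ℝ] E3 :=
  LinearEquiv.toContinuousLinearEquiv
    { toFun := fun z => pt (Real.cos θ * z 0 - Real.sin θ * z 1) (Real.sin θ * z 0 + Real.cos θ * z 1) (z 2)
      invFun := fun z => pt (Real.cos θ * z 0 + Real.sin θ * z 1) (-Real.sin θ * z 0 + Real.cos θ * z 1) (z 2)
      map_add' := fun x y => by
        ext i; fin_cases i <;> simp [pt] <;> ring
      map_smul' := fun r x => by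
        ext i; fin_cases i <;> simp [pt] <;> ring
      left_inv := fun x => by
        have h := Real.sin_sq_add_cos_sq θ
        ext i; fin_cases i
        · simp only [pt_zero', pt_one', Fin.zero_eta]
          linear_combination (x 0) * h
        · simp only [pt_zero', pt_one', Fin.mk_one]
          linear_combination (x 1) * h
        · simp [pt]
      right_inv := fun x => by
        have h := Real.sin_sq_add_cos_sq θ
        ext i; fin_cases i
        · simp only [pt_zero', pt_one', Fin.zero_eta]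
          linear_combination (x 0) * h
        · simp only [pt_zero', pt_one', Fin.mk_one]
          linear_combination (x 1) * h
        · simp [pt] }

theorem rotB_apply (θ : ℝ) (z : E3) : rotB θ z =
    pt (Real.cos θ * z 0 - Real.sin θ * z 1) (Real.sin θ * z 0 + Real.cos θ * z 1) (z 2) := rfl

theorem rotB_symm_apply (θ : ℝ) (z : E3) : (rotB θ).symm z =
    pt (Real.cos θ * z 0 + Real.sin θ * z 1) (-Real.sin θ * z 0 + Real.cos θ * z 1) (z 2) := rfl

theorem contDiff_pt {V : Type*} [NormedAddCommGroup V] [NormedSpace ℝ V] {a b c : V → ℝ}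
    (ha : ContDiff ℝ ∞ a) (hb : ContDiff ℝ ∞ b) (hc : ContDiff ℝ ∞ c) :
    ContDiff ℝ ∞ fun v => pt (a v) (b v) (c v) := by
  rw [contDiff_euclidean]
  intro i
  fin_cases i
  · simpa using ha
  · simpa using hb
  · simpa using hc

theorem contDiff_coord {V : Type*} [NormedAddCommGroup V] [NormedSpace ℝ V] {z : V → E3}
    (hz : ContDiff ℝ ∞ z) (i : Fin 3) : ContDiff ℝ ∞ fun v => z v i :=
  (contDiff_euclidean.1 hz) i

theorem rotB_smooth : ContDiff ℝ ∞ fun q : ℝ × E3 => rotB q.1 q.2 := by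
  simp only [rotB_apply]
  have h0 := contDiff_coord (contDiff_snd (𝕜 := ℝ) (E := ℝ) (F := E3) (n := ∞)) 0
  have h1 := contDiff_coord (contDiff_snd (𝕜 := ℝ) (E := ℝ) (F := E3) (n := ∞)) 1
  have h2 := contDiff_coord (contDiff_snd (𝕜 := ℝ) (E := ℝ) (F := E3) (n := ∞)) 2
  have hc : ContDiff ℝ ∞ fun q : ℝ × E3 => Real.cos q.1 := Real.contDiff_cos.comp contDiff_fst
  have hs : ContDiff ℝ ∞ fun q : ℝ × E3 => Real.sin q.1 := Real.contDiff_sin.comp contDiff_fst
  exact contDiff_pt ((hc.mul h0).sub (hs.mul h1)) ((hs.mul h0).add (hc.mul h1)) h2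

theorem rotB_zero (z : E3) : rotB 0 z = z := by
  rw [rotB_apply]; ext i; fin_cases i <;> simp

theorem rotB_pi (z : E3) : rotB Real.pi z = pt (-z 0) (-z 1) (z 2) := by
  rw [rotB_apply]; ext i; fin_cases i <;> simp

end Pool.Agent.UNQ
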