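import Pool.Agent.UNQ.Small
import Pool.Agent.CSG.Radial

/-!
# UNQ/Tube: normalisation of a tube around a circle

`tube`: let `g (a, x)` be a family of local diffeomorphisms of `(R^3, 0)`, 1-periodic in `a`, whose
derivatives at the origin form a loop homotopic to the constant loop.  For every `R > 0` there is a
1-periodic smooth family `χ a` of diffeomorphisms of `R^3`, equal to the identity for `‖x‖ ≥ R`, with
`χ a x = g (a, c x)` for small `x`.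
-/

open scoped ContDiff Topology
open Set Filter

namespace Pool.Agent.UNQ
open Pool.Agent.CSG

/-- `radial` for families of loops. -/
theorem radial_loop {N : ℝ → ℝ → E3 ≃L[ℝ] E3}
    (hN : ContDiff ℝ ∞ fun q : ℝ × ℝ × E3 => N q.1 q.2.1 q.2.2)
    (hper : ∀ t τ z, N (t + 1) τ z = N t τ z) (h0 : ∀ t z, N t 0 z = z) {R : ℝ} (hR : 0 < R) :
    ∃ r₀ : ℝ, 0 < r₀ ∧ ∃ f : ℝ → Equiv.Perm E3,
      (ContDiff ℝ ∞ fun q : E3 × ℝ => f q.2 q.1) ∧
      (ContDiff ℝ ∞ fun q : E3 × ℝ => (f q.2).symm q.1) ∧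
      (∀ t z, f (t + 1) z = f t z) ∧ (∀ t z, R ≤ ‖z‖ → f t z = z) ∧
      (∀ t z, ‖z‖ ≤ r₀ → f t z = N t 1 z) := by
  let Mo : ℝ × ℝ → E3 ≃L[ℝ] E3 := fun q => N q.1 q.2
  have hMo : ContDiff ℝ ∞ fun q : (ℝ × ℝ) × E3 => Mo q.1 q.2 := (fam2_iff N).1 hN
  have hc1 := (fam_iff Mo).1 hMo
  have hc2 := (fam_iff (fun q => (Mo q).symm)).1 (fam_symm hMo)
  have hK : IsCompact (Icc (0 : ℝ) 1 ×ˢ Icc (0 : ℝ) 1) := isCompact_Icc.prod isCompact_Icc
  obtain ⟨B1, hB1⟩ := hK.exists_bound_of_continuousOn hc1.continuous.continuousOn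
  obtain ⟨B2, hB2⟩ := hK.exists_bound_of_continuousOn hc2.continuous.continuousOn
  have hd : Continuous (fderiv ℝ fun q : ℝ × ℝ => (Mo q : E3 →L[ℝ] E3)) :=
    hc1.continuous_fderiv (by simp)
  obtain ⟨B3, hB3⟩ := hK.exists_bound_of_continuousOn (E := ℝ × ℝ →L[ℝ] E3 →L[ℝ] E3)
    (f := fderiv ℝ fun q : ℝ × ℝ => (Mo q : E3 →L[ℝ] E3)) hd.continuousOn
  set C : ℝ := max (max B1 B2) (max B3 0) with hC
  have hCB1 : B1 ≤ C := (le_max_left _ _).trans (le_max_left _ _)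
  have hCB2 : B2 ≤ C := (le_max_right _ _).trans (le_max_left _ _)
  have hCB3 : B3 ≤ C := (le_max_left _ _).trans (le_max_right _ _)
  have hfr : ∀ t τ, N (Int.fract t) τ = N t τ := by
    intro t τ
    exact per_fract (g := fun t => N t τ)
      (fun a => ContinuousLinearEquiv.ext (funext fun z => hper a τ z)) t
  have hfr01 : ∀ t τ, 0 ≤ τ → τ ≤ 1 → (Int.fract t, τ) ∈ Icc (0 : ℝ) 1 ×ˢ Icc (0 : ℝ) 1 :=
    fun t τ a b => ⟨⟨Int.fract_nonneg t, (Int.fract_lt_one t).le⟩, ⟨a, b⟩⟩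
  have b1 : ∀ t τ z, 0 ≤ τ → τ ≤ 1 → ‖N t τ z‖ ≤ C * ‖z‖ := by
    intro t τ z a b
    rw [← hfr t τ]
    have h1 := hB1 _ (hfr01 t τ a b)
    calc ‖N (Int.fract t) τ z‖ = ‖(N (Int.fract t) τ : E3 →L[ℝ] E3) z‖ := rfl
      _ ≤ ‖(N (Int.fract t) τ : E3 →L[ℝ] E3)‖ * ‖z‖ := ContinuousLinearMap.le_opNorm _ _
      _ ≤ C * ‖z‖ := by gcongr; exact h1.trans hCB1
  have b2 : ∀ t τ z, 0 ≤ τ → τ ≤ 1 → ‖(N t τ).symm z‖ ≤ C * ‖z‖ := by
    intro t τ z a b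
    rw [← hfr t τ]
    have h1 := hB2 _ (hfr01 t τ a b)
    calc ‖(N (Int.fract t) τ).symm z‖ = ‖((N (Int.fract t) τ).symm : E3 →L[ℝ] E3) z‖ := rfl
      _ ≤ ‖((N (Int.fract t) τ).symm : E3 →L[ℝ] E3)‖ * ‖z‖ := ContinuousLinearMap.le_opNorm _ _
      _ ≤ C * ‖z‖ := by gcongr; exact h1.trans hCB2
  have b3 : ∀ t τ τ' z, 0 ≤ τ → τ ≤ 1 → 0 ≤ τ' → τ' ≤ 1 →
      ‖N t τ z - N t τ' z‖ ≤ C * |τ - τ'| * ‖z‖ := by
    intro t τ τ' z a b a' b'
    rw [← hfr t τ, ← hfr t τ']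
    have hconv : Convex ℝ (Icc (0 : ℝ) 1 ×ˢ Icc (0 : ℝ) 1) :=
      (convex_Icc _ _).prod (convex_Icc _ _)
    have h1 := hconv.norm_image_sub_le_of_norm_fderiv_le (𝕜 := ℝ)
      (f := fun q : ℝ × ℝ => (Mo q : E3 →L[ℝ] E3)) (C := B3)
      (fun q _ => (hc1.differentiable (by simp)).differentiableAt) hB3
      (hfr01 t τ' a' b') (hfr01 t τ a b)
    have h2 : ‖(Int.fract t, τ) - (Int.fract t, τ')‖ = |τ - τ'| := by
      simp [Prod.norm_def]
    rw [h2] at h1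
    calc ‖N (Int.fract t) τ z - N (Int.fract t) τ' z‖
        = ‖((N (Int.fract t) τ : E3 →L[ℝ] E3) - (N (Int.fract t) τ' : E3 →L[ℝ] E3)) z‖ := rfl
      _ ≤ ‖(N (Int.fract t) τ : E3 →L[ℝ] E3) - (N (Int.fract t) τ' : E3 →L[ℝ] E3)‖ * ‖z‖ :=
          ContinuousLinearMap.le_opNorm _ _
      _ ≤ (B3 * |τ - τ'|) * ‖z‖ := by gcongr
      _ ≤ C * |τ - τ'| * ‖z‖ := by gcongr
  obtain ⟨r₀, hr₀, hr₀R, θ, f, hθs, hθ01, hθ1, hθ0, hf, hfs, hfs'⟩ :=
    radial N hN h0 C b1 b2 b3 R hR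
  refine ⟨r₀, hr₀, f, hfs, hfs', ?_, ?_, ?_⟩
  · intro t z
    rw [hf, hf, hper]
  · intro t z hz
    rw [hf, hθ0 z hz, h0]
  · intro t z hz
    rw [hf, hθ1 z hz]

/-- composition of smooth families of permutations -/
theorem fam_perm_comp {f g : ℝ → Equiv.Perm E3} (hf : ContDiff ℝ ∞ fun q : E3 × ℝ => f q.2 q.1)
    (hg : ContDiff ℝ ∞ fun q : E3 × ℝ => g q.2 q.1) :
    ContDiff ℝ ∞ fun q : E3 × ℝ => (f q.2 * g q.2) q.1 :=
  hf.comp (hg.prodMk contDiff_snd)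

theorem fam_perm_comp_symm {f g : ℝ → Equiv.Perm E3}
    (hf : ContDiff ℝ ∞ fun q : E3 × ℝ => (f q.2).symm q.1)
    (hg : ContDiff ℝ ∞ fun q : E3 × ℝ => (g q.2).symm q.1) :
    ContDiff ℝ ∞ fun q : E3 × ℝ => (f q.2 * g q.2).symm q.1 :=
  hg.comp (hf.prodMk contDiff_snd)

/-- a loop homotopic to the constant loop is realised near the origin by a compactly supported
family of diffeomorphisms -/
theorem exists_lin {L : ℝ → E3 ≃L[ℝ] E3} (hL : Hom one L) {R : ℝ} (hR : 0 < R) :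
    ∃ r₀ : ℝ, 0 < r₀ ∧ ∃ f : ℝ → Equiv.Perm E3,
      (ContDiff ℝ ∞ fun q : E3 × ℝ => f q.2 q.1) ∧
      (ContDiff ℝ ∞ fun q : E3 × ℝ => (f q.2).symm q.1) ∧
      (∀ t z, f (t + 1) z = f t z) ∧ (∀ t z, R ≤ ‖z‖ → f t z = z) ∧
      (∀ t z, ‖z‖ ≤ r₀ → f t z = L t z) := by
  induction hL with
  | refl => exact ⟨R, hR, fun _ => 1, contDiff_fst, contDiff_fst, fun _ _ => rfl, fun _ _ _ => rfl,
      fun _ _ _ => rfl⟩
  | @tail L L' _ h ih =>
    obtain ⟨r₁, hr₁, f, hf, hf', hfper, hffar, hfL⟩ := ih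
    obtain ⟨M, h1, h2, h3, h4⟩ := h
    have hLs : IsLoop L := isLoop_of_loopHom_left ⟨M, h1, h2, h3, h4⟩
    have hLs' : IsLoop L' := isLoop_of_loopHom_right ⟨M, h1, h2, h3, h4⟩
    have hM' : ContDiff ℝ ∞ fun q : ℝ × ℝ × E3 => ((M q.1 q.2.1).trans (L q.1).symm) q.2.2 := by
      rw [fam2_iff] at h1
      refine (fam2_iff (fun t τ => (M t τ).trans (L t).symm)).2 ?_
      exact fam_comp (P := fun v : ℝ × ℝ => (L v.1).symm) (Q := fun v : ℝ × ℝ => M v.1 v.2)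
        (fam_pre (P := fun v : ℝ => (L v).symm) (fam_symm hLs.smooth) contDiff_fst) h1
    have hLeq : ∀ t, L (t + 1) = L t := fun t =>
      ContinuousLinearEquiv.ext (funext fun z => hLs.per t z)
    obtain ⟨r₂, hr₂, e, he, he', heper, hefar, heM⟩ :=
      radial_loop (N := fun t τ => (M t τ).trans (L t).symm) hM'
        (fun t τ z => by simp [h2, hLeq]) (fun t z => by simp [h3]) hR
    -- bound for `L⁻¹ L'`
    have hquot : ContDiff ℝ ∞ fun q : ℝ × E3 => cp (iv L) L' q.1 q.2 :=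
      smooth_cp (smooth_iv hLs.smooth) hLs'.smooth
    obtain ⟨B, hB⟩ := (isCompact_Icc (a := (0 : ℝ)) (b := 1)).exists_bound_of_continuousOn
      ((fam_iff _).1 hquot).continuous.continuousOn
    have hB' : ∀ t z, ‖cp (iv L) L' t z‖ ≤ (|B| + 1) * ‖z‖ := by
      intro t z
      have hq := isLoop_cp (isLoop_iv hLs) hLs'
      have e1 : cp (iv L) L' (Int.fract t) = cp (iv L) L' t :=
        per_fract (g := cp (iv L) L')
          (fun a => ContinuousLinearEquiv.ext (funext fun z => hq.per a z)) t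
      rw [← e1]
      calc ‖cp (iv L) L' (Int.fract t) z‖
          = ‖(cp (iv L) L' (Int.fract t) : E3 →L[ℝ] E3) z‖ := rfl
        _ ≤ ‖(cp (iv L) L' (Int.fract t) : E3 →L[ℝ] E3)‖ * ‖z‖ := ContinuousLinearMap.le_opNorm _ _
        _ ≤ (|B| + 1) * ‖z‖ := by
            gcongr
            exact (hB _ ⟨Int.fract_nonneg t, (Int.fract_lt_one t).le⟩).trans
              ((le_abs_self B).trans (by linarith))
    have hBpos : 0 < |B| + 1 := by positivity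
    refine ⟨min r₂ (r₁ / (|B| + 1)), by positivity, fun t => f t * e t, fam_perm_comp hf he,
      fam_perm_comp_symm hf' he', ?_, ?_, ?_⟩
    · intro t z
      rw [Equiv.Perm.mul_apply, Equiv.Perm.mul_apply, heper, hfper]
    · intro t z hz
      rw [Equiv.Perm.mul_apply, hefar t z hz, hffar t z hz]
    · intro t z hz
      have e1 : e t z = cp (iv L) L' t z := by
        rw [heM t z (hz.trans (min_le_left _ _))]
        simp [h4]
      rw [Equiv.Perm.mul_apply, e1, hfL]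
      · simp
      · calc ‖cp (iv L) L' t z‖ ≤ (|B| + 1) * ‖z‖ := hB' t z
          _ ≤ (|B| + 1) * (r₁ / (|B| + 1)) := by
              gcongr; exact hz.trans (min_le_right _ _)
          _ = r₁ := by field_simp

/-- homotheties -/
noncomputable def scl (c : ℝ) (hc : c ≠ 0) : E3 ≃L[ℝ] E3 :=
  (LinearEquiv.smulOfNeZero ℝ E3 c hc).toContinuousLinearEquiv

theorem scl_apply (c : ℝ) (hc : c ≠ 0) (z : E3) : scl c hc z = c • z := rfl

theorem hom_scl {k : ℝ} (hk : 0 < k) : Hom one (fun _ => scl k hk.ne') := by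
  refine Hom.of ⟨fun _ τ => scl (Real.exp (τ * Real.log k)) (Real.exp_ne_zero _), ?_,
    fun _ _ _ => rfl, ?_, ?_⟩
  · simp only [scl_apply]
    exact (Real.contDiff_exp.comp ((contDiff_fst.comp contDiff_snd).mul contDiff_const)).smul
      (contDiff_snd.comp contDiff_snd)
  · intro t z
    simp [scl_apply]
  · intro t z
    simp [scl_apply, Real.exp_log hk]

theorem small_image {ψ : ℝ → Equiv.Perm E3} (hψs : ContDiff ℝ ∞ fun q : E3 × ℝ => ψ q.2 q.1)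
    (hψper : ∀ a x, ψ (a + 1) x = ψ a x) (hψ0 : ∀ a, ψ a 0 = 0) {r₁ : ℝ} (hr₁ : 0 < r₁) :
    ∃ r₂ : ℝ, 0 < r₂ ∧ ∀ a x, ‖x‖ ≤ r₂ → ‖ψ a x‖ ≤ r₁ := by
  have hcont : Continuous fun q : ℝ × E3 => ‖ψ q.1 q.2‖ :=
    (hψs.continuous.comp (continuous_snd.prodMk continuous_fst)).norm
  have hopen : IsOpen {q : ℝ × E3 | ‖ψ q.1 q.2‖ < r₁} := isOpen_lt hcont continuous_const
  have hsub : Icc (0 : ℝ) 1 ×ˢ ({0} : Set E3) ⊆ {q : ℝ × E3 | ‖ψ q.1 q.2‖ < r₁} := by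
    rintro ⟨a, x⟩ ⟨-, hx⟩
    have hx0 : x = 0 := hx
    rw [hx0, mem_ofPred_eq, hψ0, norm_zero]
    exact hr₁
  obtain ⟨u, v, -, hv, hu1, hv1, huv⟩ :=
    generalized_tube_lemma isCompact_Icc isCompact_singleton hopen hsub
  obtain ⟨δ₀, hδ₀, hball⟩ := Metric.isOpen_iff.1 hv 0 (hv1 rfl)
  refine ⟨δ₀ / 2, by positivity, fun a x hx => ?_⟩
  have e1 : ψ (Int.fract a) = ψ a :=
    per_fract (g := ψ) (fun a => Equiv.ext fun x => hψper a x) a
  have hxv : x ∈ v := hball (by rw [mem_ball_zero_iff]; linarith)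
  have hau : Int.fract a ∈ u := hu1 ⟨Int.fract_nonneg a, (Int.fract_lt_one a).le⟩
  have hmem : ((Int.fract a, x) : ℝ × E3) ∈ {q : ℝ × E3 | ‖ψ q.1 q.2‖ < r₁} :=
    huv (mk_mem_prod hau hxv)
  rw [mem_ofPred_eq, e1] at hmem
  exact hmem.le

theorem tube {g : ℝ × E3 → E3} {ρ : ℝ} (hρ : 0 < ρ)
    (hg : ContDiffOn ℝ ∞ g {q | ‖q.2‖ < ρ})
    (hper : ∀ a x, ‖x‖ < ρ → g (a + 1, x) = g (a, x)) (h0 : ∀ a, g (a, 0) = 0)
    {M : ℝ → E3 ≃L[ℝ] E3}
    (hd : ∀ a, HasFDerivAt (fun x => g (a, x)) ((M a : E3 ≃L[ℝ] E3) : E3 →L[ℝ] E3) 0)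
    (hM : Hom one M) {R : ℝ} (hR : 0 < R) :
    ∃ r₀ c : ℝ, 0 < r₀ ∧ 0 < c ∧ c * r₀ < ρ ∧ ∃ χ : ℝ → Equiv.Perm E3,
      (ContDiff ℝ ∞ fun q : E3 × ℝ => χ q.2 q.1) ∧
      (ContDiff ℝ ∞ fun q : E3 × ℝ => (χ q.2).symm q.1) ∧
      (∀ a x, χ (a + 1) x = χ a x) ∧ (∀ a x, R ≤ ‖x‖ → χ a x = x) ∧
      ∀ a x, ‖x‖ ≤ r₀ → χ a x = g (a, c • x) := by
  have hMl : IsLoop M := hM.isLoop isLoop_one
  have hMeq : ∀ t, M (t + 1) = M t := fun t =>
    ContinuousLinearEquiv.ext (funext fun z => hMl.per t z)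
  have hMsymm := fam_symm hMl.smooth
  -- remove the linear part
  have hg1 : ContDiffOn ℝ ∞ (fun q : ℝ × E3 => (M q.1).symm (g q)) {q | ‖q.2‖ < ρ} := by
    have : (fun q : ℝ × E3 => (M q.1).symm (g q)) =
        (fun q : ℝ × E3 => (M q.1).symm q.2) ∘ fun q : ℝ × E3 => (q.1, g q) := rfl
    rw [this]
    exact hMsymm.comp_contDiffOn (contDiff_fst.contDiffOn.prodMk hg)
  obtain ⟨k, hk, hkR, ψ, hψs, hψs', hψper, hψfar, hψ⟩ :=
    exists_nl (g := fun q : ℝ × E3 => (M q.1).symm (g q)) hρ hg1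
      (fun a x hx => by simp only [hMeq, hper a x hx]) (fun a => by simp [h0])
      (fun a => by
        have h1 : HasFDerivAt (fun x => (M a).symm (g (a, x)))
            (((M a).symm : E3 →L[ℝ] E3).comp ((M a : E3 ≃L[ℝ] E3) : E3 →L[ℝ] E3)) 0 :=
          ((M a).symm : E3 →L[ℝ] E3).hasFDerivAt.comp 0 (hd a)
        have e : (((M a).symm : E3 →L[ℝ] E3).comp ((M a : E3 ≃L[ℝ] E3) : E3 →L[ℝ] E3)) =
            ContinuousLinearMap.id ℝ E3 := by ext1 v; simp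
        rwa [e] at h1) hR
  have hkM : Hom one (cp (fun _ => scl k hk.ne') M) := by
    have h1 := hM.cp_left (L := fun _ => scl k hk.ne') ((hom_scl hk).isLoop isLoop_one)
    rw [cp_one] at h1
    exact (hom_scl hk).trans h1
  obtain ⟨r₁, hr₁, f, hf, hf', hfper, hffar, hfM⟩ := exists_lin hkM hR
  -- `ψ` maps a small ball into the ball of radius `r₁`
  have hψ0 : ∀ a, ψ a 0 = 0 := by
    intro a
    rw [hψ a 0 (by rw [norm_zero]; positivity), smul_zero, h0, map_zero, smul_zero]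
  obtain ⟨r₂, hr₂, hψsmall⟩ := small_image hψs hψper hψ0 hr₁
  refine ⟨min r₂ (R / 2), k, by positivity, hk, ?_, fun a => f a * ψ a, fam_perm_comp hf hψs,
    fam_perm_comp_symm hf' hψs', ?_, ?_, ?_⟩
  · calc k * min r₂ (R / 2) ≤ k * (R / 2) := by gcongr; exact min_le_right _ _
      _ ≤ k * R := by gcongr; linarith
      _ < ρ := hkR
  · intro a x
    rw [Equiv.Perm.mul_apply, Equiv.Perm.mul_apply, hψper, hfper]
  · intro a x hx
    rw [Equiv.Perm.mul_apply, hψfar a x hx, hffar a x hx]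
  · intro a x hx
    rw [Equiv.Perm.mul_apply, hfM a _ (hψsmall a x (hx.trans (min_le_left _ _))),
      hψ a x (hx.trans (min_le_right _ _)), cp_apply, scl_apply, map_smul, smul_smul,
      mul_inv_cancel₀ hk.ne', one_smul, ContinuousLinearEquiv.apply_symm_apply]

end Pool.Agent.UNQ
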