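import Pool.Agent.UNQ.Pair

/-!
# UNQ/Eig: the real eigenbasis of `A_{-1}`

`f(x) = x³ + x² - 2x - 1` has roots `a₀ ∈ (1, 2)`, `a₁ ∈ (-1, 0)`, `a₂ ∈ (-2, -1)`
(`f(-2) = -1`, `f(-1) = 1`, `f(0) = -1`, `f(1) = -1`, `f(2) = 7`; intermediate value theorem).
The eigenvector of `A_{-1}` for a root `r` is `(1, r + r², r)`.
`S c = ∑ cᵢ (1, aᵢ + aᵢ², aᵢ)`; it is bijective since the `aᵢ` are distinct (Vandermonde).
`g = -(1 + A)` has eigenvalues `bᵢ = -(1 + aᵢ)`: `b₀ < 0`, `b₁ < 0`, `b₂ > 0`.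
-/

open scoped ContDiff

namespace Pool.Agent.UNQ
open Pool.Agent.CSG

theorem Eig_roots : ∃ a b c : ℝ, (1 < a ∧ a < 2) ∧ (-1 < b ∧ b < 0) ∧ (-2 < c ∧ c < -1) ∧
    a ^ 3 + a ^ 2 - 2 * a - 1 = 0 ∧ b ^ 3 + b ^ 2 - 2 * b - 1 = 0 ∧
    c ^ 3 + c ^ 2 - 2 * c - 1 = 0 := by
  have hf : Continuous fun x : ℝ => x ^ 3 + x ^ 2 - 2 * x - 1 := by fun_prop
  obtain ⟨a, ha, ha'⟩ : (0 : ℝ) ∈ (fun x : ℝ => x ^ 3 + x ^ 2 - 2 * x - 1) '' Set.Ioo 1 2 :=
    intermediate_value_Ioo (by norm_num) hf.continuousOn ⟨by norm_num, by norm_num⟩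
  obtain ⟨b, hb, hb'⟩ : (0 : ℝ) ∈ (fun x : ℝ => x ^ 3 + x ^ 2 - 2 * x - 1) '' Set.Ioo (-1) 0 :=
    intermediate_value_Ioo' (by norm_num) hf.continuousOn ⟨by norm_num, by norm_num⟩
  obtain ⟨c, hc, hc'⟩ : (0 : ℝ) ∈ (fun x : ℝ => x ^ 3 + x ^ 2 - 2 * x - 1) '' Set.Ioo (-2) (-1) :=
    intermediate_value_Ioo (by norm_num) hf.continuousOn ⟨by norm_num, by norm_num⟩
  exact ⟨a, b, c, ha, hb, hc, ha', hb', hc'⟩

/-- the map `c ↦ ∑ cᵢ (1, aᵢ + aᵢ², aᵢ)` -/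
noncomputable def Eig_lin (a : Fin 3 → ℝ) : E3 →ₗ[ℝ] E3 where
  toFun c := pt (c 0 + c 1 + c 2)
    (c 0 * (a 0 + a 0 ^ 2) + c 1 * (a 1 + a 1 ^ 2) + c 2 * (a 2 + a 2 ^ 2))
    (c 0 * a 0 + c 1 * a 1 + c 2 * a 2)
  map_add' x y := by
    ext i; fin_cases i <;> simp [pt] <;> ring
  map_smul' r x := by
    ext i; fin_cases i <;> simp [pt] <;> ring

theorem Eig_inj {a : Fin 3 → ℝ} (h01 : a 0 ≠ a 1) (h02 : a 0 ≠ a 2) (h12 : a 1 ≠ a 2) :
    Function.Injective (Eig_lin a) := by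
  rw [← LinearMap.ker_eq_bot, LinearMap.ker_eq_bot']
  intro c hc
  have e0 : c 0 + c 1 + c 2 = 0 := by
    have := congrArg (fun z : E3 => z 0) hc
    simpa [Eig_lin] using this
  have e1 : c 0 * (a 0 + a 0 ^ 2) + c 1 * (a 1 + a 1 ^ 2) + c 2 * (a 2 + a 2 ^ 2) = 0 := by
    have := congrArg (fun z : E3 => z 1) hc
    simpa [Eig_lin] using this
  have e2 : c 0 * a 0 + c 1 * a 1 + c 2 * a 2 = 0 := by
    have := congrArg (fun z : E3 => z 2) hc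
    simpa [Eig_lin] using this
  have c0 : c 0 = 0 := by
    have : c 0 * ((a 0 - a 1) * (a 0 - a 2)) = 0 := by
      linear_combination e1 - (1 + a 1 + a 2) * e2 + a 1 * a 2 * e0
    exact (mul_eq_zero.1 this).resolve_right (mul_ne_zero (sub_ne_zero.2 h01) (sub_ne_zero.2 h02))
  have c1 : c 1 = 0 := by
    have : c 1 * ((a 1 - a 0) * (a 1 - a 2)) = 0 := by
      linear_combination e1 - (1 + a 0 + a 2) * e2 + a 0 * a 2 * e0
    exact (mul_eq_zero.1 this).resolve_right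
      (mul_ne_zero (sub_ne_zero.2 h01.symm) (sub_ne_zero.2 h12))
  have c2 : c 2 = 0 := by linarith
  ext i; fin_cases i
  · exact c0
  · exact c1
  · exact c2

theorem exists_signPair : ∃ (S : E3 ≃L[ℝ] E3) (a b : Fin 3 → ℝ), SignPair Am1 gm1 S a b := by
  obtain ⟨a, b, c, ha, hb, hc, ea, eb, ec⟩ := Eig_roots
  have hinj : Function.Injective (Eig_lin ![a, b, c]) := Eig_inj
    (by simp; linarith [ha.1, hb.2]) (by simp; linarith [ha.1, hc.2])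
    (by simp; linarith [hb.1, hc.2])
  let S : E3 ≃L[ℝ] E3 := (LinearEquiv.ofInjectiveEndo (Eig_lin ![a, b, c]) hinj).toContinuousLinearEquiv
  have hS : ∀ z : E3, S z = pt (z 0 + z 1 + z 2)
      (z 0 * (a + a ^ 2) + z 1 * (b + b ^ 2) + z 2 * (c + c ^ 2))
      (z 0 * a + z 1 * b + z 2 * c) := fun z => rfl
  refine ⟨S, ![a, b, c], ![-(1 + a), -(1 + b), -(1 + c)], ?_, ?_, ?_, ?_, ?_, ?_, ?_, ?_⟩
  · intro z
    rw [hS, hS]
    ext i; fin_cases i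
    · simp [act, Am1, Fin.sum_univ_three]; ring
    · simp [act, Am1, Fin.sum_univ_three]
      linear_combination (-(z 0)) * ea - z 1 * eb - z 2 * ec
    · simp [act, Am1, Fin.sum_univ_three]; ring
  · intro z
    rw [hS, hS]
    ext i; fin_cases i
    · simp [act, gm1, Fin.sum_univ_three]; ring
    · simp [act, gm1, Fin.sum_univ_three]
      linear_combination (z 0) * ea + z 1 * eb + z 2 * ec
    · simp [act, gm1, Fin.sum_univ_three]; ring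
  · simp; linarith [ha.1]
  · simp; linarith [hb.2]
  · simp; linarith [hc.2]
  · simp; linarith [ha.1]
  · simp; linarith [hb.1]
  · simp; linarith [hc.2]

end Pool.Agent.UNQ
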