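import Pool.Agent.UNQ.Base
import Pool.Agent.CSG.FunBasic

/-!
# UNQ/Pair: framings of a monodromy matrix; commuting matrices with prescribed signs
-/

open scoped ContDiff

namespace Pool.Agent.UNQ
open Pool.Agent.CSG

/-- framings of the integer matrix `A` -/
structure IsFraming (A : Matrix (Fin 3) (Fin 3) ℤ) (P : ℝ → E3 ≃L[ℝ] E3) : Prop where
  smooth : ContDiff ℝ ∞ fun q : ℝ × E3 => P q.1 q.2
  mon : ∀ t z, act A (P (t + 1) z) = P t z

/-- `A` and `g` are diagonalised by the same real basis, with eigenvalues `a`, `b`. -/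
structure SignPair (A g : Matrix (Fin 3) (Fin 3) ℤ) (S : E3 ≃L[ℝ] E3) (a b : Fin 3 → ℝ) : Prop where
  hA : ∀ c : E3, act A (S c) = S (pt (a 0 * c 0) (a 1 * c 1) (a 2 * c 2))
  hg : ∀ c : E3, act g (S c) = S (pt (b 0 * c 0) (b 1 * c 1) (b 2 * c 2))
  a0 : 0 < a 0
  a1 : a 1 < 0
  a2 : a 2 < 0
  b0 : b 0 < 0
  b1 : b 1 < 0
  b2 : 0 < b 2

/-- the matrix `A_{-1}`: companion matrix of `x³ + x² - 2x - 1` -/
def Am1 : Matrix (Fin 3) (Fin 3) ℤ := !![0, 0, 1; 1, 0, 2; 0, 1, -1]

/-- `g = -(1 + A_{-1})` -/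
def gm1 : Matrix (Fin 3) (Fin 3) ℤ := !![-1, 0, -1; -1, -1, -2; 0, -1, 0]

theorem gm1_eq : gm1 = -(1 + Am1) := by
  ext i j; fin_cases i <;> fin_cases j <;> simp [gm1, Am1]

theorem gm1_comm : gm1 * Am1 = Am1 * gm1 := by decide

theorem gm1_det : gm1.det = 1 := by decide

theorem Am1_det : Am1.det = 1 := by decide

/-- quotient of two framings is a loop -/
theorem isLoop_quot {A : Matrix (Fin 3) (Fin 3) ℤ} {P Q : ℝ → E3 ≃L[ℝ] E3} (hP : IsFraming A P)
    (hQ : IsFraming A Q) (hA : Function.Injective (act A)) : IsLoop (cp (iv P) Q) where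
  smooth := smooth_cp (smooth_iv hP.smooth) hQ.smooth
  per t z := by
    simp only [cp_apply, iv_apply]
    rw [ContinuousLinearEquiv.symm_apply_eq]
    apply hA
    rw [hQ.mon, hP.mon, ContinuousLinearEquiv.apply_symm_apply]

theorem act_smul (g : Matrix (Fin 3) (Fin 3) ℤ) (c : ℝ) (z : E3) :
    act g (c • z) = c • act g z := by
  ext i
  simp [act, Finset.mul_sum, mul_left_comm]

theorem act_add (g : Matrix (Fin 3) (Fin 3) ℤ) (x y : E3) : act g (x + y) = act g x + act g y := by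
  ext i
  simp [act, mul_add, Finset.sum_add_distrib]

/-- a matrix as a linear isomorphism of `R^3` -/
theorem exists_actL {g : Matrix (Fin 3) (Fin 3) ℤ} (hg : IsUnit g.det) :
    ∃ G : E3 ≃L[ℝ] E3, ∀ z, G z = act g z := by
  obtain ⟨φ, hφ, -⟩ := exists_actE hg
  let G : E3 ≃ₗ[ℝ] E3 :=
    { toFun := φ
      invFun := φ.symm
      map_add' := fun x y => by rw [hφ, hφ, hφ, act_add]
      map_smul' := fun c x => by rw [hφ, hφ, act_smul]; rfl
      left_inv := φ.left_inv
      right_inv := φ.right_inv }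
  exact ⟨G.toContinuousLinearEquiv, fun z => hφ z⟩

theorem act_injective {g : Matrix (Fin 3) (Fin 3) ℤ} (hg : IsUnit g.det) :
    Function.Injective (act g) := by
  obtain ⟨G, hG⟩ := exists_actL hg
  intro x y h
  rw [← hG, ← hG] at h
  exact G.injective h

end Pool.Agent.UNQ
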