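import Pool.Agent.UNQ.Uni
import Pool.Agent.UNQ.Pair
import Pool.Agent.CSG.Conv
import Pool.Agent.CSG.SFrame

/-!
# UNQ/FrameHom: Cappell-Shaneson data with homotopic framings have diffeomorphic carriers
-/

open scoped Manifold ContDiff Topology
open Set Filter

namespace Pool.Agent.UNQ
open Pool.Agent.CSG

section
variable {A : Matrix (Fin 3) (Fin 3) ℤ}
variable {X : Type*} [TopologicalSpace X] [ChartedSpace E4 X]
variable {X' : Type*} [TopologicalSpace X'] [ChartedSpace E4 X']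

/-- Two families with the monodromy `A` which agree on `[0, 1)` agree everywhere. -/
theorem framing_ext (hA : Function.Injective (act A)) {P Q : ℝ → E3 → E3}
    (hP : ∀ t z, act A (P (t + 1) z) = P t z) (hQ : ∀ t z, act A (Q (t + 1) z) = Q t z)
    (h : ∀ t z, 0 ≤ t → t < 1 → P t z = Q t z) (t : ℝ) (z : E3) : P t z = Q t z := by
  have key : ∀ k : ℤ, ∀ s, 0 ≤ s → s < 1 → P (s + k) z = Q (s + k) z := by
    intro k
    induction k using Int.induction_on with
    | zero => intro s h0 h1; simpa using h s z h0 h1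
    | succ i ih =>
      intro s h0 h1
      have e : s + ((i : ℤ) + 1 : ℤ) = (s + (i : ℤ)) + 1 := by push_cast; ring
      apply hA
      rw [e, hP, hQ]
      exact ih s h0 h1
    | pred i ih =>
      intro s h0 h1
      have e : (s + ((-(i : ℤ) - 1 : ℤ) : ℝ)) + 1 = s + ((-(i : ℤ) : ℤ) : ℝ) := by push_cast; ring
      rw [← hP, ← hQ, e, ih s h0 h1]
  have := key ⌊t⌋ (Int.fract t) (Int.fract_nonneg _) (Int.fract_lt_one _)
  rwa [Int.fract_add_floor] at this

/-- the framing of Cappell-Shaneson data -/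
theorem CSData_isFraming (D : CSData A X) : IsFraming A D.P := ⟨D.P_smooth, D.P_mon⟩

/-- Change of the framing by a homotopy, for `Surg`. -/
theorem surg_hom {φ : Equiv.Perm E3} (hφ : Mono A φ) (S : Surg φ X) {L : ℝ → E3 ≃L[ℝ] E3}
    (hL : Hom one L) :
    ∃ c : ℝ, 0 < c ∧ c ≤ 1 ∧ ∃ S₁ : Surg φ X, ∀ t z, S₁.P t z = c • S.P t (L t z) := by
  induction hL with
  | refl => exact ⟨1, one_pos, le_rfl, S, fun t z => by simp⟩
  | @tail L L' _ h ih =>
    obtain ⟨c, hc, hc1, S₁, hS₁⟩ := ih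
    obtain ⟨M, h1, h2, h3, h4⟩ := h
    have hLs : IsLoop L := isLoop_of_loopHom_left ⟨M, h1, h2, h3, h4⟩
    have hM' : ContDiff ℝ ∞ fun q : ℝ × ℝ × E3 => ((M q.1 q.2.1).trans (L q.1).symm) q.2.2 := by
      rw [fam2_iff] at h1
      refine (fam2_iff (fun t τ => (M t τ).trans (L t).symm)).2 ?_
      exact fam_comp (P := fun v : ℝ × ℝ => (L v.1).symm) (Q := fun v : ℝ × ℝ => M v.1 v.2)
        (fam_pre (P := fun v : ℝ => (L v).symm) (fam_symm hLs.smooth) contDiff_fst) h1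
    have hper : ∀ t τ z, ((M (t + 1) τ).trans (L (t + 1)).symm) z =
        ((M t τ).trans (L t).symm) z := by
      intro t τ z
      have : L (t + 1) = L t := by ext1; funext z; exact hLs.per t z
      simp [h2, this]
    obtain ⟨c', hc', hc1', S₂, hS₂⟩ := surg_frame hφ S₁ (fun t τ => (M t τ).trans (L t).symm)
      hM' hper (fun t z => by simp [h3])
    refine ⟨c' * c, mul_pos hc' hc, by nlinarith, S₂, fun t z => ?_⟩
    rw [hS₂, hS₁, smul_smul]
    congr 2
    simp [h4]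

/-- Cappell-Shaneson data from `Surg` with control of the framing. -/
theorem cs_of_surg' (hA : IsUnit A.det) {φ : Equiv.Perm E3} (hφ : ∀ x, φ x = act A x)
    (S : Surg φ X) {P : ℝ → E3 → E3} (hP : ∀ t z, act A (P (t + 1) z) = P t z)
    (h : ∀ t z, S.P t z = P t z) :
    ∃ D : CSData A X, ∀ t z, D.P t z = P t z := by
  obtain ⟨D, -, -, hD⟩ := cs_of_surg hA hφ S
  refine ⟨D, framing_ext (act_injective hA) D.P_mon hP ?_⟩
  intro t z h0 h1
  rw [hD t (by linarith) (by linarith), h]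

/-- Shrinking of the framing. -/
theorem cs_shrink (hA : IsUnit A.det) (D : CSData A X) {c : ℝ} (hc : 0 < c) (hc1 : c ≤ 1) :
    ∃ D₁ : CSData A X, ∀ t z, D₁.P t z = c • D.P t z := by
  obtain ⟨φ, hφ, hM⟩ := exists_actE hA
  obtain ⟨S, -, -, hS⟩ := surg_of_cs hφ D
  obtain ⟨S₁, hS₁⟩ := surg_shrink hM S c hc hc1
  refine cs_of_surg' hA hφ S₁ (P := fun t z => c • D.P t z) ?_ ?_
  · intro t z
    rw [act_smul, D.P_mon]
  · intro t z
    rw [hS₁, hS]

/-- Composition of the framing with `-1`. -/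
theorem cs_neg (hA : IsUnit A.det) (D : CSData A X) :
    ∃ D₁ : CSData A X, ∀ t z, D₁.P t z = D.P t (-z) := by
  obtain ⟨φ, hφ, hM⟩ := exists_actE hA
  obtain ⟨S, -, -, hS⟩ := surg_of_cs hφ D
  obtain ⟨S₁, hS₁⟩ := surg_orth hM S (LinearIsometryEquiv.neg ℝ)
  refine cs_of_surg' hA hφ S₁ (P := fun t z => D.P t (-z)) ?_ ?_
  · intro t z
    exact D.P_mon t (-z)
  · intro t z
    rw [hS₁, hS]; rfl

/-- Change of the framing by a homotopy. -/
theorem cs_hom (hA : IsUnit A.det) (D : CSData A X) {L : ℝ → E3 ≃L[ℝ] E3} (hL : Hom one L) :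
    ∃ c : ℝ, 0 < c ∧ c ≤ 1 ∧ ∃ D₁ : CSData A X, ∀ t z, D₁.P t z = c • D.P t (L t z) := by
  obtain ⟨φ, hφ, hM⟩ := exists_actE hA
  obtain ⟨S, -, -, hS⟩ := surg_of_cs hφ D
  obtain ⟨c, hc, hc1, S₁, hS₁⟩ := surg_hom hM S hL
  have hLs : IsLoop L := hL.isLoop isLoop_one
  refine ⟨c, hc, hc1, cs_of_surg' hA hφ S₁ (P := fun t z => c • D.P t (L t z)) ?_ ?_⟩
  · intro t z
    rw [act_smul, D.P_mon, hLs.per]
  · intro t z
    rw [hS₁, hS]

/-- Conjugation in `GL_3(Z)`, with control of the framing. -/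
theorem cs_conj' {B Q : Matrix (Fin 3) (Fin 3) ℤ} (hQ : IsUnit Q.det) (h : Q * A = B * Q)
    (D : CSData A X) : ∃ D₁ : CSData B X, ∀ t z, D₁.P t z = act Q (D.P t z) := by
  obtain ⟨φ, hφ, hM⟩ := exists_actE hQ
  obtain ⟨G, hG⟩ := exists_actL hQ
  have hφG : ∀ z, φ z = G z := fun z => by rw [hφ, hG]
  have hlat : ∀ x, ¬ IsLat x → ¬ IsLat (φ.symm x) := by
    intro x hx h
    apply hx
    rw [← hM.isLat] at h
    simpa using h
  have hsv : ∀ x m, ∃ m', φ.symm (x + vec m) = φ.symm x + vec m' := by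
    intro x m
    refine ⟨Q⁻¹.mulVec m, ?_⟩
    rw [Equiv.symm_apply_eq, hM.lat, Equiv.apply_symm_apply, Matrix.mulVec_mulVec,
      Matrix.mul_nonsing_inv _ hQ, Matrix.one_mulVec]
  refine ⟨
    { H := fun q => D.H (φ.symm q.1, q.2)
      j := D.j
      P := fun t => (D.P t).trans G
      P_smooth := fam_comp (P := fun _ : ℝ => G) (Q := D.P) (fam_const G) D.P_smooth
      P_mon := ?_
      P_avoid := ?_
      H_loc := ?_
      H_per := ?_
      H_mon := ?_
      H_inj := ?_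
      j_loc := D.j_loc
      j_inj := D.j_inj
      glue := ?_
      disj := ?_
      cover := ?_ }, ?_⟩
  · intro t z
    simp only [ContinuousLinearEquiv.trans_apply, hG]
    rw [← act_mul, ← h, act_mul, D.P_mon]
  · intro t z hz hz1
    simp only [ContinuousLinearEquiv.trans_apply]
    rw [← hφG, hM.isLat]
    exact D.P_avoid t z hz hz1
  · intro x t hx
    have h1 := ld_of_family (g := fun _ : ℝ => (φ.symm : E3 ≃ E3))
      (hM.smooth_symm.comp contDiff_fst) (hM.smooth.comp contDiff_fst) x t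
    exact h1.comp _ _ (D.H_loc _ t (hlat x hx))
  · intro x t m hx
    obtain ⟨m', hm'⟩ := hsv x m
    simp only [hm']
    exact D.H_per _ _ _ (hlat x hx)
  · intro x t hx
    have e : φ.symm (act B x) = act A (φ.symm x) := by
      rw [Equiv.symm_apply_eq, hφ, ← act_mul, h, act_mul, ← hφ, Equiv.apply_symm_apply]
    simp only [e]
    exact D.H_mon _ _ (hlat x hx)
  · intro x y s t hx hy hs hs1 ht ht1 he
    obtain ⟨e, m, hm⟩ := D.H_inj _ _ _ _ (hlat x hx) (hlat y hy) hs hs1 ht ht1 he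
    refine ⟨e, Q.mulVec m, ?_⟩
    rw [Equiv.symm_apply_eq, hM.lat, Equiv.apply_symm_apply] at hm
    exact hm
  · intro t r y hr hr1
    simp only [ContinuousLinearEquiv.trans_apply]
    rw [← hφG, Equiv.symm_apply_apply]
    exact D.glue t r y hr hr1
  · intro y x t hx
    exact D.disj y _ t (hlat x hx)
  · intro p
    rcases D.cover p with h | ⟨x, t, hx, rfl⟩
    · exact Or.inl h
    · refine Or.inr ⟨φ x, t, ?_, ?_⟩
      · rwa [hM.isLat]
      · simp
  · intro t z
    simp only [ContinuousLinearEquiv.trans_apply, hG]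

/-- Cappell-Shaneson data with homotopic framings have diffeomorphic carriers. -/
theorem diffeo_of_hom (hA : IsUnit A.det) (D : CSData A X) (D' : CSData A X')
    {L : ℝ → E3 ≃L[ℝ] E3} (hL : Hom L one) (hP : ∀ t z, D'.P t z = D.P t (L t z)) :
    Nonempty (X ≃ₘ^∞⟮𝓡 4, 𝓡 4⟯ X') := by
  obtain ⟨c, hc, hc1, D₁, hD₁⟩ := cs_hom hA D hL.symm
  obtain ⟨D₂, hD₂⟩ := cs_shrink hA D' hc hc1
  exact diffeo_of_same hA D₁ D₂ (fun t z => by rw [hD₁, hD₂, hP])

end

end Pool.Agent.UNQ
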