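import Pool.Agent.UNQ.Kg
import Pool.Agent.UNQ.Eig
import Pool.Agent.UNQ.FrameHom

/-!
# UNQ/Fin: all Cappell-Shaneson spheres of `A_{-1}` are diffeomorphic

Let `D₀ : CSData A X₀`, `D : CSData A X` with framings `P₀`, `P`, and `g` commuting with `A` as in
`SignPair`.  `L = P₀⁻¹ P` is a loop; after replacing `P` by `-P` it has positive determinant, so
`L ~ 1` or `L ~ std 1`.  In the first case use `diffeo_of_hom`.  In the second case replace `D₀` by
its conjugate by `g`, with framing `g P₀`: `(g P₀)⁻¹ P = (P₀⁻¹ g P₀)⁻¹ L ~ (std 1)⁻¹ (std 1) = 1`.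
-/

open scoped Manifold ContDiff Topology

namespace Pool.Agent.UNQ
open Pool.Agent.CSG

section
variable {A : Matrix (Fin 3) (Fin 3) ℤ}
variable {X : Type*} [TopologicalSpace X] [ChartedSpace E4 X]
variable {X₀ : Type*} [TopologicalSpace X₀] [ChartedSpace E4 X₀]

theorem diffeo_of_quot (hA : IsUnit A.det) (D₀ : CSData A X₀) (D : CSData A X)
    (h : Hom (cp (iv D₀.P) D.P) one) : Nonempty (X₀ ≃ₘ^∞⟮𝓡 4, 𝓡 4⟯ X) :=
  diffeo_of_hom hA D₀ D h (fun t z => by simp)

theorem carrier_unique {g : Matrix (Fin 3) (Fin 3) ℤ} {S : E3 ≃L[ℝ] E3} {a b : Fin 3 → ℝ}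
    (h : SignPair A g S a b) (hA : IsUnit A.det) (hg : IsUnit g.det) (hc : g * A = A * g)
    (D₀ : CSData A X₀) (D : CSData A X) : Nonempty (X₀ ≃ₘ^∞⟮𝓡 4, 𝓡 4⟯ X) := by
  obtain ⟨G, hG⟩ := exists_actL hg
  -- we may assume that the quotient of the framings has positive determinant
  have key : ∀ D : CSData A X, PosDet (cp (iv D₀.P) D.P) → Nonempty (X₀ ≃ₘ^∞⟮𝓡 4, 𝓡 4⟯ X) := by
    intro D hpos
    have hL := isLoop_quot (CSData_isFraming D₀) (CSData_isFraming D) (act_injective hA)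
    rcases cls hL hpos with h1 | h1
    · exact diffeo_of_quot hA D₀ D h1
    · obtain ⟨D₁, hD₁⟩ := cs_conj' hg hc D₀
      have hK := hom_kg h hA G hG (CSData_isFraming D₀)
      have hKl : IsLoop (cp (iv D₀.P) (cp (fun _ => G) D₀.P)) := hK.symm.isLoop (isLoop_std 1)
      have h2 : Hom (cp (iv (cp (iv D₀.P) (cp (fun _ => G) D₀.P))) (cp (iv D₀.P) D.P)) one := by
        have h3 := ((h1.cp_left (isLoop_iv hKl))).trans (hK.iv.cp_right (isLoop_std 1))
        rwa [iv_cp] at h3
      have e : cp (iv (cp (iv D₀.P) (cp (fun _ => G) D₀.P))) (cp (iv D₀.P) D.P) =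
          cp (iv D₁.P) D.P := by
        apply loop_ext
        intro t z
        simp only [cp_apply, iv_apply]
        rw [ContinuousLinearEquiv.symm_apply_eq]
        simp only [cp_apply, iv_apply]
        congr 1
        rw [hG, ← hD₁, ContinuousLinearEquiv.apply_symm_apply]
      rw [e] at h2
      exact diffeo_of_quot hA D₁ D h2
  have hs : ContDiff ℝ ∞ fun q : ℝ × E3 => cp (iv D₀.P) D.P q.1 q.2 :=
    smooth_cp (smooth_iv D₀.P_smooth) D.P_smooth
  rcases sign_cases hs with hpos | hpos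
  · exact key D hpos
  · obtain ⟨D₂, hD₂⟩ := cs_neg hA D
    refine key D₂ ?_
    have e : cp (iv D₀.P) D₂.P = cp (cp (iv D₀.P) D.P) fun _ => ContinuousLinearEquiv.neg ℝ := by
      apply loop_ext
      intro t z
      simp only [cp_apply, iv_apply, hD₂, ContinuousLinearEquiv.neg_apply]
    rw [e]
    exact hpos

end

section
variable {X : Type*} [TopologicalSpace X] [ChartedSpace E4 X]
variable {X₀ : Type*} [TopologicalSpace X₀] [ChartedSpace E4 X₀]

/-- Any two smooth 4-manifolds obtained by the Cappell-Shaneson construction from `A_{-1}` (with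
any framings) are diffeomorphic. -/
theorem carrier_unique_Am1 (D₀ : CSData Am1 X₀) (D : CSData Am1 X) :
    Nonempty (X₀ ≃ₘ^∞⟮𝓡 4, 𝓡 4⟯ X) := by
  obtain ⟨S, a, b, h⟩ := exists_signPair
  exact carrier_unique h (by rw [Am1_det]; exact isUnit_one) (by rw [gm1_det]; exact isUnit_one)
    gm1_comm D₀ D

end

end Pool.Agent.UNQ
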