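import Pool.Agent.UNQ.Base

/-!
# UNQ/LoopE: the double rotation is null homotopic

Let `B θ` be the rotation by the angle `θ` in the plane of `e₀, e₁`:
`B θ (z₀, z₁, z₂) = (cos θ z₀ - sin θ z₁, sin θ z₀ + cos θ z₁, z₂)`.
`B π (z₀, z₁, z₂) = (-z₀, -z₁, z₂)` and `B π⁻¹ ∘ cmul c ∘ B π = cmul c̄`
(with `w = z₁ + i z₂`: `w ↦ -w̄ ↦ -c w̄ ↦ c̄ w`).
`M t τ = std 1 t ∘ B (π τ)⁻¹ ∘ std 1 t ∘ B (π τ)`: `M t 0 = std 2 t`, `M t 1 = std 1 t ∘ std (-1) t = 1`.
General `k`: compose with `std k` (`loopHom_cp_left`, `std_add`).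
-/

open scoped ContDiff
open Complex (I)

namespace Pool.Agent.UNQ
open Pool.Agent.CSG

theorem LoopE_conj (c : ℂ) (z : E3) :
    (rotB Real.pi).symm (cmul c (rotB Real.pi z)) = cmul ((starRingEnd ℂ) c) z := by
  rw [ContinuousLinearEquiv.symm_apply_eq, rotB_pi, rotB_pi]
  ext i; fin_cases i
  · simp [cmul, pt]
  · simp [cmul, pt]; ring
  · simp [cmul, pt]

theorem LoopE_exp (k : ℤ) (t : ℝ) :
    (starRingEnd ℂ) (Complex.exp ((2 * Real.pi * k * t : ℝ) * I)) =
      Complex.exp ((2 * Real.pi * (-k : ℤ) * t : ℝ) * I) := by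
  rw [← Complex.exp_conj, map_mul, Complex.conj_ofReal, Complex.conj_I]
  congr 1
  push_cast; ring

theorem std_two : LoopHom (std 2) one := by
  refine ⟨fun t τ => (rotB (Real.pi * τ)).trans
    ((std 1 t).trans ((rotB (Real.pi * τ)).symm.trans (std 1 t))), ?_, ?_, ?_, ?_⟩
  · refine (fam2_iff (fun t τ => (rotB (Real.pi * τ)).trans
      ((std 1 t).trans ((rotB (Real.pi * τ)).symm.trans (std 1 t))))).2 ?_
    have hB : ContDiff ℝ ∞ fun q : (ℝ × ℝ) × E3 => rotB (Real.pi * q.1.2) q.2 :=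
      fam_pre (P := rotB) rotB_smooth (f := fun v : ℝ × ℝ => Real.pi * v.2)
        (contDiff_const.mul contDiff_snd)
    have hS : ContDiff ℝ ∞ fun q : (ℝ × ℝ) × E3 => std 1 q.1.1 q.2 :=
      fam_pre (P := std 1) (isLoop_std 1).smooth (f := fun v : ℝ × ℝ => v.1) contDiff_fst
    have hBs := fam_symm (P := fun v : ℝ × ℝ => rotB (Real.pi * v.2)) hB
    exact fam_comp (P := fun v : ℝ × ℝ => (std 1 v.1).trans
        ((rotB (Real.pi * v.2)).symm.trans (std 1 v.1))) (Q := fun v : ℝ × ℝ => rotB (Real.pi * v.2))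
      (fam_comp (P := fun v : ℝ × ℝ => (rotB (Real.pi * v.2)).symm.trans (std 1 v.1))
        (Q := fun v : ℝ × ℝ => std 1 v.1)
        (fam_comp (P := fun v : ℝ × ℝ => std 1 v.1)
          (Q := fun v : ℝ × ℝ => (rotB (Real.pi * v.2)).symm) hS hBs) hS) hB
  · intro t τ z
    simp only [ContinuousLinearEquiv.trans_apply, (isLoop_std 1).per]
  · intro t z
    have h0 : rotB (Real.pi * 0) = ContinuousLinearEquiv.refl ℝ E3 := by
      ext1; funext z; simpa using rotB_zero z
    simp only [ContinuousLinearEquiv.trans_apply, h0]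
    have := std_add 1 1
    rw [show (2 : ℤ) = 1 + 1 by norm_num, this]
    rfl
  · intro t z
    simp only [ContinuousLinearEquiv.trans_apply, mul_one]
    have h1 : (rotB Real.pi).symm (std 1 t (rotB Real.pi z)) = std (-1) t z := by
      rw [std_apply, LoopE_conj, LoopE_exp, ← std_apply]
    rw [h1]
    have := std_add 1 (-1)
    rw [show (1 : ℤ) + -1 = 0 by norm_num, std_zero] at this
    rw [this]
    rfl

theorem std_add_two (k : ℤ) : LoopHom (std (k + 2)) (std k) := by
  have h := loopHom_cp_left (isLoop_std k) std_two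
  rwa [← std_add, cp_one] at h

theorem LoopE_even (m : ℤ) : Hom (std (2 * m)) one := by
  induction m using Int.induction_on with
  | zero =>
    rw [mul_zero, std_zero]
    exact Hom.refl _
  | succ i ih =>
    have h := Hom.of (std_add_two (2 * (i : ℤ)))
    rw [show (2 * ((i : ℤ) + 1)) = 2 * (i : ℤ) + 2 by ring]
    exact h.trans ih
  | pred i ih =>
    have h := Hom.of (std_add_two (2 * (-(i : ℤ) - 1)))
    rw [show 2 * (-(i : ℤ) - 1) + 2 = 2 * (-(i : ℤ)) by ring] at h
    exact h.symm.trans ih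

/-- every standard loop is homotopic to `1` or to `std 1` -/
theorem std_parity (k : ℤ) : Hom (std k) one ∨ Hom (std k) (std 1) := by
  obtain ⟨m, rfl | rfl⟩ := Int.even_or_odd' k
  · exact Or.inl (LoopE_even m)
  · right
    have h := (LoopE_even m).cp_right (isLoop_std 1)
    rwa [← std_add, one_cp] at h

end Pool.Agent.UNQ
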