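import Pool.Agent.UNQ.Base

/-!
# UNQ/Sign: the sign of the determinant of a smooth family

`det (P t)` is continuous in `t` and never zero, so of constant sign; `det (-P t) = - det (P t)`.
`neg` is the isomorphism `z ↦ -z`.
-/

open scoped ContDiff

namespace Pool.Agent.UNQ
open Pool.Agent.CSG

theorem Sign_det_ne (B : E3 ≃L[ℝ] E3) :
    LinearMap.det (B.toLinearEquiv : E3 →ₗ[ℝ] E3) ≠ 0 :=
  (LinearEquiv.isUnit_det' B.toLinearEquiv).ne_zero

theorem Sign_cont {L : ℝ → E3 ≃L[ℝ] E3} (hL : ContDiff ℝ ∞ fun q : ℝ × E3 => L q.1 q.2) :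
    Continuous fun t => LinearMap.det ((L t).toLinearEquiv : E3 →ₗ[ℝ] E3) := by
  have h := ((fam_iff L).1 hL).continuous
  exact ContinuousLinearMap.continuous_det.comp h

theorem Sign_const {f : ℝ → ℝ} (hf : Continuous f) (h0 : ∀ t, f t ≠ 0) (s : ℝ) (hs : 0 < f s)
    (t : ℝ) : 0 < f t := by
  by_contra hn
  have hn' : f t < 0 := lt_of_le_of_ne (not_lt.1 hn) (h0 t)
  have : (0 : ℝ) ∈ f '' Set.uIcc t s := by
    apply intermediate_value_uIcc hf.continuousOn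
    rw [Set.uIcc_of_le (by linarith)]
    exact ⟨hn'.le, hs.le⟩
  obtain ⟨r, _, hr⟩ := this
  exact h0 r hr

theorem posDet_of {L : ℝ → E3 ≃L[ℝ] E3} (hL : ContDiff ℝ ∞ fun q : ℝ × E3 => L q.1 q.2) (s : ℝ)
    (hs : 0 < LinearMap.det ((L s).toLinearEquiv : E3 →ₗ[ℝ] E3)) : PosDet L := fun t =>
  Sign_const (Sign_cont hL) (fun _ => Sign_det_ne _) s hs t

theorem Sign_det_neg : LinearMap.det ((ContinuousLinearEquiv.neg ℝ : E3 ≃L[ℝ] E3).toLinearEquiv :
    E3 →ₗ[ℝ] E3) = -1 := by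
  have : ((ContinuousLinearEquiv.neg ℝ : E3 ≃L[ℝ] E3).toLinearEquiv : E3 →ₗ[ℝ] E3) =
      (-1 : ℝ) • LinearMap.id := by
    ext1 z
    change -z = (-1 : ℝ) • z
    simp
  rw [this, LinearMap.det_smul, LinearMap.det_id]
  simp
  norm_num

theorem Sign_det_cp (P Q : ℝ → E3 ≃L[ℝ] E3) (t : ℝ) :
    LinearMap.det ((cp P Q t).toLinearEquiv : E3 →ₗ[ℝ] E3) =
      LinearMap.det ((P t).toLinearEquiv : E3 →ₗ[ℝ] E3) *
      LinearMap.det ((Q t).toLinearEquiv : E3 →ₗ[ℝ] E3) := by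
  rw [← LinearMap.det_comp]
  rfl

theorem sign_cases {L : ℝ → E3 ≃L[ℝ] E3} (hL : ContDiff ℝ ∞ fun q : ℝ × E3 => L q.1 q.2) :
    PosDet L ∨ PosDet (cp L fun _ => ContinuousLinearEquiv.neg ℝ) := by
  rcases lt_or_gt_of_ne (Sign_det_ne (L 0)) with h | h
  · right
    refine posDet_of (smooth_cp hL (fam_const _)) 0 ?_
    rw [Sign_det_cp, Sign_det_neg]
    linarith
  · exact Or.inl (posDet_of hL 0 h)

theorem posDet_cp {P Q : ℝ → E3 ≃L[ℝ] E3} (hP : PosDet P) (hQ : PosDet Q) : PosDet (cp P Q) := by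
  intro t
  rw [Sign_det_cp]
  exact mul_pos (hP t) (hQ t)

theorem posDet_one : PosDet one := by
  intro t
  have : ((one t).toLinearEquiv : E3 →ₗ[ℝ] E3) = LinearMap.id := rfl
  rw [this, LinearMap.det_id]
  exact one_pos

theorem posDet_iv {P : ℝ → E3 ≃L[ℝ] E3} (hP : PosDet P) : PosDet (iv P) := by
  intro t
  have h := Sign_det_cp (iv P) P t
  rw [iv_cp] at h
  have h1 := posDet_one t
  rw [h] at h1
  exact (pos_iff_pos_of_mul_pos h1).2 (hP t)

theorem posDet_std (k : ℤ) : PosDet (std k) := by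
  refine posDet_of (isLoop_std k).smooth 0 ?_
  have : ((std k 0).toLinearEquiv : E3 →ₗ[ℝ] E3) = LinearMap.id := by
    ext1 z
    change std k 0 z = z
    rw [std_apply]
    ext i; fin_cases i <;> simp [cmul, pt]
  rw [this, LinearMap.det_id]
  exact one_pos

end Pool.Agent.UNQ
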