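import Pool.Agent.UNQ.Lift
import Pool.Agent.UNQ.LoopE
import Pool.Agent.UNQ.Sign
import Pool.Agent.CSG.LoopA
import Pool.Agent.CSG.LoopB
import Pool.Agent.CSG.LoopC

/-!
# UNQ/Cls: classification of loops in `GL_3(R)⁺` up to smooth homotopy

`loopA`, `loopB`, `loopC`, `hom_std`, `std_parity`.
-/

open scoped ContDiff

namespace Pool.Agent.UNQ
open Pool.Agent.CSG

theorem cls {L : ℝ → E3 ≃L[ℝ] E3} (hL : IsLoop L) (hpos : PosDet L) :
    Hom L one ∨ Hom L (std 1) := by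
  obtain ⟨Q, hQ, hQpos, hPQ, hQa⟩ := loopA hL hpos
  obtain ⟨R, hR, hRpos, hQR, hRa⟩ := loopB hQ hQpos hQa
  obtain ⟨T, hT, hRT, α, hα, hper, h0, hTα⟩ := loopC hR hRpos hRa
  obtain ⟨k, hk⟩ := hom_std hα hper h0 hTα
  have h1 : Hom L (std k) := ((Hom.of hPQ).trans (Hom.of hQR)).trans (Hom.trans hRT (Hom.of hk))
  rcases std_parity k with h | h
  · exact Or.inl (h1.trans h)
  · exact Or.inr (h1.trans h)

end Pool.Agent.UNQ
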