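import Pool.Agent.UNQ.Fin
import Pool.Agent.CSG.FunBasic

/-!
# UNQ/Par: the loops `cmul (gfr k t)` and the parity of `k`
-/

open scoped ContDiff
open Complex (I)

namespace Pool.Agent.UNQ
open Pool.Agent.CSG

theorem gfr_ne (k : ℤ) (t : ℝ) : gfr k t ≠ 0 := by
  rw [← norm_pos_iff, gfr_norm]; exact one_pos

/-- the loop `cmul (gfr k t)` -/
noncomputable def gfrL (k : ℤ) (t : ℝ) : E3 ≃L[ℝ] E3 := rotE (gfr k t) (gfr_ne k t)

@[simp] theorem gfrL_apply (k : ℤ) (t : ℝ) (z : E3) : gfrL k t z = cmul (gfr k t) z := rfl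

theorem isLoop_gfrL (k : ℤ) : IsLoop (gfrL k) where
  smooth := contDiff_cmul ((gfr_smooth k).comp contDiff_fst) contDiff_snd
  per t z := by simp [gfr_add_one]

theorem gfr_hom_std (k : ℤ) : LoopHom (gfrL k) (std k) := by
  refine rot_hom (l := fun t => ((2 * Real.pi * k * thc (t + 1 / 2) : ℝ) : ℂ) * I)
    (l' := fun t => ((2 * Real.pi * k * t : ℝ) : ℂ) * I) k ?_ ?_ ?_ ?_ ?_ ?_
  · exact (Complex.ofRealCLM.contDiff.comp (contDiff_const.mul
      (thc_smooth.comp (contDiff_id.add contDiff_const)))).mul contDiff_const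
  · exact (Complex.ofRealCLM.contDiff.comp (contDiff_const.mul contDiff_id)).mul contDiff_const
  · intro t
    have h := thc_add_int (t + 1 / 2) 1
    rw [show t + 1 / 2 + ((1 : ℤ) : ℝ) = t + 1 + 1 / 2 by push_cast; ring] at h
    simp only [h]
    push_cast; ring
  · intro t
    push_cast; ring
  · intro t z
    rfl
  · intro t z
    rfl

/-- The homotopy class of the loop `cmul (gfr k t)` depends only on the parity of `k`. -/
theorem gfr_hom_add_two (k : ℤ) : Hom (gfrL (k + 2)) (gfrL k) :=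
  ((Hom.of (gfr_hom_std (k + 2))).trans (Hom.of (std_add_two k))).trans
    (Hom.of (gfr_hom_std k)).symm

theorem gfr_hom_parity {k l : ℤ} (h : (2 : ℤ) ∣ k - l) : Hom (gfrL k) (gfrL l) := by
  obtain ⟨m, hm⟩ := h
  have hk : k = 2 * m + l := by omega
  have h1 : Hom (std k) (std l) := by
    have h2 := (LoopE_even m).cp_right (isLoop_std l)
    rwa [← std_add, one_cp, ← hk] at h2
  exact ((Hom.of (gfr_hom_std k)).trans h1).trans (Hom.of (gfr_hom_std l)).symm

end Pool.Agent.UNQ
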