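import Pool.Agent.UNQ.Base
import Pool.Agent.CSG.LD

/-!
# UNQ/Small: small perturbations of the identity
-/

open scoped ContDiff Topology
open Set Filter

namespace Pool.Agent.UNQ
open Pool.Agent.CSG

/-- A family of small perturbations of the identity is a family of diffeomorphisms. -/
theorem exists_perturb {w : ℝ → E3 → E3} (hw : ContDiff ℝ ∞ fun q : E3 × ℝ => w q.2 q.1)
    (hd : ∀ a x, ‖fderiv ℝ (w a) x‖ ≤ 1 / 2) :
    ∃ ψ : ℝ → Equiv.Perm E3, (∀ a x, ψ a x = x + w a x) ∧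
      (ContDiff ℝ ∞ fun q : E3 × ℝ => ψ q.2 q.1) ∧
      (ContDiff ℝ ∞ fun q : E3 × ℝ => (ψ q.2).symm q.1) := by
  have hwa : ∀ a, ContDiff ℝ ∞ (w a) := fun a =>
    hw.comp (contDiff_id.prodMk contDiff_const)
  have hdiff : ∀ a, Differentiable ℝ (w a) := fun a => (hwa a).differentiable (by simp)
  have hlip : ∀ a x y, ‖w a x - w a y‖ ≤ 1 / 2 * ‖x - y‖ := by
    intro a x y
    exact convex_univ.norm_image_sub_le_of_norm_fderiv_le (𝕜 := ℝ)
      (fun z _ => (hdiff a).differentiableAt) (fun z _ => hd a z) (mem_univ y) (mem_univ x)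
  have happ : ∀ a, ApproximatesLinearOn (fun x => x + w a x)
      ((ContinuousLinearEquiv.refl ℝ E3 : E3 ≃L[ℝ] E3) : E3 →L[ℝ] E3) univ (1 / 2 : NNReal) := by
    intro a x _ y _
    have e : x + w a x - (y + w a y) -
        ((ContinuousLinearEquiv.refl ℝ E3 : E3 ≃L[ℝ] E3) : E3 →L[ℝ] E3) (x - y) =
        w a x - w a y := by
      simp; abel
    rw [e]
    simpa using hlip a x y
  have hc : (1 / 2 : NNReal) <
      ‖((ContinuousLinearEquiv.refl ℝ E3).symm : E3 →L[ℝ] E3)‖₊⁻¹ := by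
    have : ((ContinuousLinearEquiv.refl ℝ E3).symm : E3 →L[ℝ] E3) = ContinuousLinearMap.id ℝ E3 :=
      rfl
    rw [this, ContinuousLinearMap.nnnorm_id, inv_one]
    exact NNReal.half_lt_self one_ne_zero
  have hbij : ∀ a, Function.Bijective fun x => x + w a x := fun a =>
    ⟨fun x y h => (happ a).injOn (Or.inr hc) (mem_univ x) (mem_univ y) h,
      (happ a).surjective (Or.inr hc)⟩
  refine ⟨fun a => Equiv.ofBijective _ (hbij a), fun a x => rfl, ?_, ?_⟩
  · exact contDiff_fst.add hw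
  · refine smooth_symm_of_family (g := fun a => Equiv.ofBijective _ (hbij a))
      (contDiff_fst.add hw) ?_ rfl
    intro x a v hv
    have h1 : HasFDerivAt (fun y => y + w a y)
        (ContinuousLinearMap.id ℝ E3 + fderiv ℝ (w a) x) x :=
      (hasFDerivAt_id x).add (hdiff a x).hasFDerivAt
    have h2 : fderiv ℝ (Equiv.ofBijective _ (hbij a)) x =
        ContinuousLinearMap.id ℝ E3 + fderiv ℝ (w a) x := h1.fderiv
    rw [h2] at hv
    have h3 : v = -(fderiv ℝ (w a) x v) := by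
      have : v + fderiv ℝ (w a) x v = 0 := hv
      exact eq_neg_of_add_eq_zero_left this
    have h4 : ‖v‖ ≤ 1 / 2 * ‖v‖ := by
      conv_lhs => rw [h3]
      rw [norm_neg]
      exact (ContinuousLinearMap.le_opNorm _ _).trans (by gcongr; exact hd a x)
    have h5 : ‖v‖ ≤ 0 := by linarith
    exact norm_le_zero_iff.1 h5

theorem per_int {α : Type*} {g : ℝ → α} (h : ∀ a, g (a + 1) = g a) (k : ℤ) (a : ℝ) :
    g (a + k) = g a := by
  have hn : ∀ (n : ℕ) a, g (a + n) = g a := by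
    intro n
    induction n with
    | zero => intro a; simp
    | succ n ih =>
      intro a
      have : a + ((n + 1 : ℕ) : ℝ) = (a + n) + 1 := by push_cast; ring
      rw [this, h, ih]
  rcases Int.eq_nat_or_neg k with ⟨n, rfl | rfl⟩
  · simpa using hn n a
  · have := hn n (a + ((-(n : ℤ) : ℤ) : ℝ))
    rw [← this]
    congr 1
    push_cast
    ring

theorem per_fract {α : Type*} {g : ℝ → α} (h : ∀ a, g (a + 1) = g a) (a : ℝ) :
    g (Int.fract a) = g a := by
  have := per_int h ⌊a⌋ (Int.fract a)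
  rw [Int.fract_add_floor] at this
  exact this.symm

/-- uniform smallness of the derivative near the core -/
theorem exists_small {g : ℝ × E3 → E3} {ρ : ℝ} (hρ : 0 < ρ)
    (hg : ContDiffOn ℝ ∞ g {q | ‖q.2‖ < ρ})
    (hper : ∀ a x, ‖x‖ < ρ → g (a + 1, x) = g (a, x))
    (hd : ∀ a, HasFDerivAt (fun x => g (a, x)) (0 : E3 →L[ℝ] E3) 0) {η : ℝ} (hη : 0 < η) :
    ∃ δ, 0 < δ ∧ δ < ρ ∧ ∀ a x, ‖x‖ ≤ δ → ‖fderiv ℝ (fun y => g (a, y)) x‖ ≤ η := by
  have hU : IsOpen {q : ℝ × E3 | ‖q.2‖ < ρ} := isOpen_lt (by fun_prop) continuous_const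
  have hpart : ∀ a x, ‖x‖ < ρ → fderiv ℝ (fun y => g (a, y)) x =
      (fderiv ℝ g (a, x)).comp (ContinuousLinearMap.inr ℝ ℝ E3) := by
    intro a x hx
    have hm : ((a, x) : ℝ × E3) ∈ {q : ℝ × E3 | ‖q.2‖ < ρ} := hx
    have hc : ContDiffAt ℝ ∞ g (a, x) := hg.contDiffAt (hU.mem_nhds hm)
    have h1 : HasFDerivAt g (fderiv ℝ g (a, x)) (a, x) :=
      (hc.differentiableAt (by simp)).hasFDerivAt
    have h2 : HasFDerivAt (fun y : E3 => ((a, y) : ℝ × E3)) (ContinuousLinearMap.inr ℝ ℝ E3) x :=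
      hasFDerivAt_prodMk_right a x
    have h3 : HasFDerivAt (g ∘ fun y : E3 => ((a, y) : ℝ × E3))
        ((fderiv ℝ g (a, x)).comp (ContinuousLinearMap.inr ℝ ℝ E3)) x := HasFDerivAt.comp x h1 h2
    exact h3.fderiv
  have hcont : ContinuousOn (fun q : ℝ × E3 =>
      ‖(fderiv ℝ g q).comp (ContinuousLinearMap.inr ℝ ℝ E3)‖) {q | ‖q.2‖ < ρ} := by
    have h1 : ContinuousOn (fderiv ℝ g) {q | ‖q.2‖ < ρ} :=
      hg.continuousOn_fderiv_of_isOpen hU (by simp)
    exact (h1.clm_comp continuousOn_const).norm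
  have hopen : IsOpen ({q : ℝ × E3 | ‖q.2‖ < ρ} ∩ (fun q : ℝ × E3 =>
      ‖(fderiv ℝ g q).comp (ContinuousLinearMap.inr ℝ ℝ E3)‖) ⁻¹' Iio η) :=
    hcont.isOpen_inter_preimage hU isOpen_Iio
  have hsub : Icc (0 : ℝ) 1 ×ˢ ({0} : Set E3) ⊆ ({q : ℝ × E3 | ‖q.2‖ < ρ} ∩ (fun q : ℝ × E3 =>
      ‖(fderiv ℝ g q).comp (ContinuousLinearMap.inr ℝ ℝ E3)‖) ⁻¹' Iio η) := by
    rintro ⟨a, x⟩ ⟨-, hx⟩
    have hx0 : x = 0 := hx
    subst hx0
    have h0ρ : ‖(0 : E3)‖ < ρ := by simpa using hρ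
    refine ⟨h0ρ, ?_⟩
    show ‖(fderiv ℝ g (a, 0)).comp (ContinuousLinearMap.inr ℝ ℝ E3)‖ < η
    rw [← hpart a 0 h0ρ, (hd a).fderiv, norm_zero]
    exact hη
  obtain ⟨u, v, -, hv, hu1, hv1, huv⟩ :=
    generalized_tube_lemma isCompact_Icc isCompact_singleton hopen hsub
  have h0v : (0 : E3) ∈ v := hv1 rfl
  obtain ⟨δ₀, hδ₀, hball⟩ := Metric.isOpen_iff.1 hv 0 h0v
  refine ⟨min (δ₀ / 2) (ρ / 2), by positivity, ?_, ?_⟩
  · exact (min_le_right _ _).trans_lt (by linarith)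
  intro a x hx
  have hxδ : ‖x‖ < δ₀ := lt_of_le_of_lt (hx.trans (min_le_left _ _)) (by linarith)
  have hxρ : ‖x‖ < ρ := lt_of_le_of_lt (hx.trans (min_le_right _ _)) (by linarith)
  have hper2 : ∀ b y, ‖y‖ < ρ → fderiv ℝ (fun z => g (b + 1, z)) y =
      fderiv ℝ (fun z => g (b, z)) y := by
    intro b y hy
    apply Filter.EventuallyEq.fderiv_eq
    have : {z : E3 | ‖z‖ < ρ} ∈ 𝓝 y := (isOpen_lt continuous_norm continuous_const).mem_nhds hy
    filter_upwards [this] with z hz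
    exact hper b z hz
  have hfr := per_fract (g := fun b => fderiv ℝ (fun z => g (b, z)) x)
    (fun b => hper2 b x hxρ) a
  have hfr' : fderiv ℝ (fun z => g (a, z)) x = fderiv ℝ (fun z => g (Int.fract a, z)) x := hfr.symm
  rw [hfr', hpart _ x hxρ]
  have hmem : ((Int.fract a, x) : ℝ × E3) ∈ u ×ˢ v :=
    ⟨hu1 ⟨Int.fract_nonneg a, (Int.fract_lt_one a).le⟩, hball (by simpa using hxδ)⟩
  exact le_of_lt (huv hmem).2

/-- A family of maps with derivative `1` at the origin agrees near the origin, after rescaling,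
with a family of diffeomorphisms supported in a given ball. -/
theorem exists_nl {g : ℝ × E3 → E3} {ρ : ℝ} (hρ : 0 < ρ)
    (hg : ContDiffOn ℝ ∞ g {q | ‖q.2‖ < ρ})
    (hper : ∀ a x, ‖x‖ < ρ → g (a + 1, x) = g (a, x)) (h0 : ∀ a, g (a, 0) = 0)
    (hd : ∀ a, HasFDerivAt (fun x => g (a, x)) (ContinuousLinearMap.id ℝ E3) 0)
    {R : ℝ} (hR : 0 < R) :
    ∃ k : ℝ, 0 < k ∧ k * R < ρ ∧ ∃ ψ : ℝ → Equiv.Perm E3,
      (ContDiff ℝ ∞ fun q : E3 × ℝ => ψ q.2 q.1) ∧
      (ContDiff ℝ ∞ fun q : E3 × ℝ => (ψ q.2).symm q.1) ∧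
      (∀ a x, ψ (a + 1) x = ψ a x) ∧ (∀ a x, R ≤ ‖x‖ → ψ a x = x) ∧
      ∀ a x, ‖x‖ ≤ R / 2 → ψ a x = k⁻¹ • g (a, k • x) := by
  have hU : IsOpen {q : ℝ × E3 | ‖q.2‖ < ρ} := isOpen_lt (by fun_prop) continuous_const
  set G : ℝ × E3 → E3 := fun q => g q - q.2 with hGdef
  have hG : ContDiffOn ℝ ∞ G {q | ‖q.2‖ < ρ} := hg.sub contDiff_snd.contDiffOn
  have hGper : ∀ a x, ‖x‖ < ρ → G (a + 1, x) = G (a, x) := by
    intro a x hx
    simp only [hGdef, hper a x hx]
  have hG0 : ∀ a, G (a, 0) = 0 := by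
    intro a; simp [hGdef, h0]
  have hGd : ∀ a, HasFDerivAt (fun x => G (a, x)) (0 : E3 →L[ℝ] E3) 0 := by
    intro a
    have h1 : HasFDerivAt (fun x => g (a, x) - x)
        (ContinuousLinearMap.id ℝ E3 - ContinuousLinearMap.id ℝ E3) 0 :=
      (hd a).sub (hasFDerivAt_id 0)
    rwa [sub_self] at h1
  let b : ContDiffBump (0 : E3) := ⟨R / 2, R, by positivity, by linarith⟩
  have hbs : ContDiff ℝ ∞ (b : E3 → ℝ) := b.contDiff
  obtain ⟨C, hC⟩ : ∃ C, ∀ x, ‖fderiv ℝ (b : E3 → ℝ) x‖ ≤ C :=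
    (hbs.continuous_fderiv (by simp)).bounded_above_of_compact_support
      (b.hasCompactSupport.fderiv ℝ)
  have hC0 : 0 ≤ C := (norm_nonneg _).trans (hC 0)
  set η : ℝ := 1 / (2 * (C * R + 1)) with hη
  have hCR : 0 < C * R + 1 := by positivity
  have hηpos : 0 < η := by positivity
  obtain ⟨δ, hδ, hδρ, hsmall⟩ := exists_small hρ hG hGper hGd hηpos
  set k : ℝ := δ / R with hk
  have hkpos : 0 < k := by positivity
  have hkR : k * R = δ := by rw [hk]; field_simp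
  have hkn : ∀ x : E3, ‖k • x‖ = k * ‖x‖ := fun x => by
    rw [norm_smul, Real.norm_of_nonneg hkpos.le]
  -- the perturbation
  let w : ℝ → E3 → E3 := fun a x => b x • (k⁻¹ • G (a, k • x))
  have hbz : ∀ x : E3, R ≤ ‖x‖ → b x = 0 := by
    intro x hx
    apply b.zero_of_le_dist
    simpa using hx
  have hw0 : ∀ (x : E3), R < ‖x‖ → ∀ a, ∀ᶠ q in 𝓝 (x, a), w q.2 q.1 = 0 := by
    intro x hx a
    have : {q : E3 × ℝ | R < ‖q.1‖} ∈ 𝓝 (x, a) :=
      (isOpen_lt continuous_const (by fun_prop)).mem_nhds hx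
    filter_upwards [this] with q hq
    have hq' : R ≤ ‖q.1‖ := le_of_lt hq
    simp [w, hbz _ hq']
  have hws : ContDiff ℝ ∞ fun q : E3 × ℝ => w q.2 q.1 := by
    rw [contDiff_iff_contDiffAt]
    rintro ⟨x, a⟩
    by_cases hx : ‖k • x‖ < ρ
    · have hm : ((a, k • x) : ℝ × E3) ∈ {q : ℝ × E3 | ‖q.2‖ < ρ} := hx
      have hc : ContDiffAt ℝ ∞ G (a, k • x) := hG.contDiffAt (hU.mem_nhds hm)
      have hinner : ContDiffAt ℝ ∞ (fun q : E3 × ℝ => ((q.2, k • q.1) : ℝ × E3)) (x, a) :=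
        (contDiff_snd.prodMk (contDiff_fst.const_smul k)).contDiffAt
      have h1 : ContDiffAt ℝ ∞ (fun q : E3 × ℝ => G (q.2, k • q.1)) (x, a) :=
        ContDiffAt.comp (x, a) (g := G) (f := fun q : E3 × ℝ => ((q.2, k • q.1) : ℝ × E3))
          hc hinner
      have h2 : ContDiffAt ℝ ∞ (fun q : E3 × ℝ => k⁻¹ • G (q.2, k • q.1)) (x, a) :=
        h1.const_smul k⁻¹
      exact (hbs.comp contDiff_fst).contDiffAt.smul h2
    · have hx' : R < ‖x‖ := by
        rw [hkn] at hx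
        by_contra hcon
        push Not at hx hcon
        have : k * ‖x‖ ≤ k * R := by gcongr
        linarith
      exact contDiffAt_const.congr_of_eventuallyEq (hw0 x hx' a)
  have hwd : ∀ a x, ‖fderiv ℝ (w a) x‖ ≤ 1 / 2 := by
    intro a x
    by_cases hx : ‖x‖ ≤ R
    · have hkx : ‖k • x‖ ≤ δ := by
        rw [hkn, ← hkR]; gcongr
      have hkxρ : ‖k • x‖ < ρ := lt_of_le_of_lt hkx hδρ
      have hdG : ∀ z : E3, ‖z‖ < ρ → DifferentiableAt ℝ (fun y => G (a, y)) z := by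
        intro z hz
        have hm : ((a, z) : ℝ × E3) ∈ {q : ℝ × E3 | ‖q.2‖ < ρ} := hz
        have hc : ContDiffAt ℝ ∞ G (a, z) := hG.contDiffAt (hU.mem_nhds hm)
        have h1 : DifferentiableAt ℝ G (a, z) := hc.differentiableAt (by simp)
        have h2 : DifferentiableAt ℝ (fun y : E3 => ((a, y) : ℝ × E3)) z :=
          (differentiableAt_const a).prodMk differentiableAt_id
        exact DifferentiableAt.comp z (g := G) (f := fun y : E3 => ((a, y) : ℝ × E3)) h1 h2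
      set D := fderiv ℝ (fun y => G (a, y)) (k • x) with hD
      have hDn : ‖D‖ ≤ η := hsmall a _ hkx
      have h1 : HasFDerivAt (fun y => G (a, y)) D (k • x) := (hdG _ hkxρ).hasFDerivAt
      have h2 : HasFDerivAt (fun y : E3 => k • y) (k • ContinuousLinearMap.id ℝ E3) x :=
        (hasFDerivAt_id x).const_smul k
      have h3 : HasFDerivAt (fun y => k⁻¹ • G (a, k • y)) D x := by
        have h4 : HasFDerivAt (fun y => G (a, k • y)) (D.comp (k • ContinuousLinearMap.id ℝ E3)) x :=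
          HasFDerivAt.comp x (g := fun y => G (a, y)) (f := fun y : E3 => k • y) h1 h2
        have h5 := h4.const_smul k⁻¹
        have e : k⁻¹ • (D.comp (k • ContinuousLinearMap.id ℝ E3)) = D := by
          ext1 v
          simp [smul_smul, inv_mul_cancel₀ hkpos.ne']
        rw [e] at h5
        exact h5
      have hval : ‖k⁻¹ • G (a, k • x)‖ ≤ η * R := by
        have hconv : Convex ℝ (Metric.closedBall (0 : E3) δ) := convex_closedBall _ _
        have h6 := hconv.norm_image_sub_le_of_norm_fderiv_le (𝕜 := ℝ) (f := fun y => G (a, y))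
          (C := η) (x := 0) (y := k • x)
          (fun z hz => hdG z (lt_of_le_of_lt (by simpa using hz) hδρ))
          (fun z hz => hsmall a z (by simpa using hz)) (by simpa using hδ.le) (by simpa using hkx)
        rw [hG0, sub_zero, sub_zero, hkn] at h6
        rw [norm_smul, norm_inv, Real.norm_of_nonneg hkpos.le]
        calc k⁻¹ * ‖G (a, k • x)‖ ≤ k⁻¹ * (η * (k * ‖x‖)) := by gcongr
          _ = η * ‖x‖ := by field_simp
          _ ≤ η * R := by gcongr
      have hb : HasFDerivAt (b : E3 → ℝ) (fderiv ℝ (b : E3 → ℝ) x) x :=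
        ((hbs.differentiable (by simp)) x).hasFDerivAt
      have h7 : HasFDerivAt (w a) (b x • D + (fderiv ℝ (b : E3 → ℝ) x).smulRight
          (k⁻¹ • G (a, k • x))) x := hb.smul h3
      rw [h7.fderiv]
      have hb1 : ‖b x‖ ≤ 1 := by
        rw [Real.norm_of_nonneg b.nonneg]; exact b.le_one
      calc ‖b x • D + (fderiv ℝ (b : E3 → ℝ) x).smulRight (k⁻¹ • G (a, k • x))‖
          ≤ ‖b x • D‖ + ‖(fderiv ℝ (b : E3 → ℝ) x).smulRight (k⁻¹ • G (a, k • x))‖ :=
            norm_add_le _ _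
        _ ≤ 1 * η + C * (η * R) := by
            gcongr
            · rw [norm_smul]; gcongr
            · rw [ContinuousLinearMap.norm_smulRight_apply]
              gcongr
              exact hC x
        _ = η * (C * R + 1) := by ring
        _ = 1 / 2 := by rw [hη]; field_simp
        _ ≤ 1 / 2 := le_rfl
    · push Not at hx
      have h8 : w a =ᶠ[𝓝 x] fun _ => 0 := by
        have : {y : E3 | R < ‖y‖} ∈ 𝓝 x := (isOpen_lt continuous_const continuous_norm).mem_nhds hx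
        filter_upwards [this] with y hy
        have hy' : R ≤ ‖y‖ := le_of_lt hy
        simp [w, hbz _ hy']
      rw [h8.fderiv_eq]
      simp
  obtain ⟨ψ, hψ, hψs, hψs'⟩ := exists_perturb hws hwd
  refine ⟨k, hkpos, by rw [hkR]; exact hδρ, ψ, hψs, hψs', ?_, ?_, ?_⟩
  · intro a x
    rw [hψ, hψ]
    congr 1
    by_cases hx : ‖x‖ < R
    · have : ‖k • x‖ < ρ := by
        rw [hkn]
        calc k * ‖x‖ ≤ k * R := by gcongr
          _ = δ := hkR
          _ < ρ := hδρ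
      simp only [w, hGper a _ this]
    · push Not at hx
      simp [w, hbz _ hx]
  · intro a x hx
    rw [hψ]
    simp [w, hbz _ hx]
  · intro a x hx
    rw [hψ]
    have : b x = 1 := b.one_of_mem_closedBall (by simpa using hx)
    have e : k⁻¹ • k • x = x := by rw [smul_smul, inv_mul_cancel₀ hkpos.ne', one_smul]
    simp only [w, this, one_smul, hGdef, smul_sub, e]
    abel

end Pool.Agent.UNQ
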