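import Pool.Agent.UNQ.Pair
import Pool.Agent.UNQ.LoopE

/-!
# UNQ/Khat: an explicit framing and its conjugation loop

`Ph t = S ∘ dia (r t) ∘ rotE (exp (π i t))` with `r t i = |a i|^{-t}`.
Monodromy: `rotE (exp (π i (t + 1))) = rotE (-1) ∘ rotE (exp (π i t))`, `a₁ = -|a₁|`, `a₂ = -|a₂|`.

`Ph⁻¹ g Ph = rotE (exp (π i t))⁻¹ ∘ dia b ∘ rotE (exp (π i t))`.  Homotopy: `dia b` to
`dia (-1, -1, 1)` (signs of `b` are `-, -, +`).  The end is `rotB π ∘ std 1 t`.
Second homotopy: `rotB (π (1 - τ)) ∘ std 1 t`, from `rotB π ∘ std 1` to `std 1`.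
-/

open scoped ContDiff
open Complex (I)

namespace Pool.Agent.UNQ
open Pool.Agent.CSG

/-- diagonal maps -/
noncomputable def dia (r : Fin 3 → ℝ) (h : ∀ i, r i ≠ 0) : E3 ≃L[ℝ] E3 :=
  LinearEquiv.toContinuousLinearEquiv
    { toFun := fun z => pt (r 0 * z 0) (r 1 * z 1) (r 2 * z 2)
      invFun := fun z => pt ((r 0)⁻¹ * z 0) ((r 1)⁻¹ * z 1) ((r 2)⁻¹ * z 2)
      map_add' := fun x y => by
        ext i; fin_cases i <;> simp [pt] <;> ring
      map_smul' := fun c x => by
        ext i; fin_cases i <;> simp [pt] <;> ring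
      left_inv := fun x => by
        ext i; fin_cases i
        · simp [pt, h 0]
        · simp [pt, h 1]
        · simp [pt, h 2]
      right_inv := fun x => by
        ext i; fin_cases i
        · simp [pt, h 0]
        · simp [pt, h 1]
        · simp [pt, h 2] }

theorem dia_apply (r : Fin 3 → ℝ) (h : ∀ i, r i ≠ 0) (z : E3) :
    dia r h z = pt (r 0 * z 0) (r 1 * z 1) (r 2 * z 2) := rfl

theorem contDiff_dia {V : Type*} [NormedAddCommGroup V] [NormedSpace ℝ V] {r : V → Fin 3 → ℝ}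
    (h : ∀ v i, r v i ≠ 0) (hr : ∀ i, ContDiff ℝ ∞ fun v => r v i) :
    ContDiff ℝ ∞ fun q : V × E3 => dia (r q.1) (h q.1) q.2 := by
  simp only [dia_apply]
  have hc := fun i => contDiff_coord (contDiff_snd (𝕜 := ℝ) (E := V) (F := E3) (n := ∞)) i
  have hr' := fun i => (hr i).comp (contDiff_fst (𝕜 := ℝ) (E := V) (F := E3) (n := ∞))
  exact contDiff_pt ((hr' 0).mul (hc 0)) ((hr' 1).mul (hc 1)) ((hr' 2).mul (hc 2))

/-- rotation by the angle `π t` -/
noncomputable def hrot (t : ℝ) : E3 ≃L[ℝ] E3 :=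
  rotE (Complex.exp ((Real.pi * t : ℝ) * I)) (Complex.exp_ne_zero _)

theorem hrot_smooth : ContDiff ℝ ∞ fun q : ℝ × E3 => hrot q.1 q.2 := by
  refine contDiff_cmul ?_ contDiff_snd
  refine ContDiff.cexp (ContDiff.mul (Complex.ofRealCLM.contDiff.comp ?_) contDiff_const)
  exact contDiff_const.mul contDiff_fst

theorem hrot_apply (t : ℝ) (z : E3) :
    hrot t z = cmul (Complex.exp ((Real.pi * t : ℝ) * I)) z := rfl

theorem cmul_ab (a b : ℝ) (z : E3) :
    cmul ((a : ℂ) + (b : ℂ) * I) z = pt (z 0) (a * z 1 - b * z 2) (a * z 2 + b * z 1) := by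
  ext i; fin_cases i <;> simp [cmul, pt]

theorem hrot_apply' (t : ℝ) (z : E3) : hrot t z =
    pt (z 0) (Real.cos (Real.pi * t) * z 1 - Real.sin (Real.pi * t) * z 2)
      (Real.cos (Real.pi * t) * z 2 + Real.sin (Real.pi * t) * z 1) := by
  rw [hrot_apply, Complex.exp_mul_I, ← Complex.ofReal_cos, ← Complex.ofReal_sin, cmul_ab]

theorem std_one_apply' (t : ℝ) (z : E3) : std 1 t z =
    pt (z 0) (Real.cos (2 * (Real.pi * t)) * z 1 - Real.sin (2 * (Real.pi * t)) * z 2)
      (Real.cos (2 * (Real.pi * t)) * z 2 + Real.sin (2 * (Real.pi * t)) * z 1) := by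
  rw [std_apply, show (2 * Real.pi * (1 : ℤ) * t : ℝ) = 2 * (Real.pi * t) by push_cast; ring,
    Complex.exp_mul_I, ← Complex.ofReal_cos, ← Complex.ofReal_sin, cmul_ab]

theorem hrot_add_one (t : ℝ) (z : E3) : hrot (t + 1) z = pt (hrot t z 0) (-hrot t z 1)
    (-hrot t z 2) := by
  rw [hrot_apply', hrot_apply', mul_add, mul_one, Real.cos_add_pi, Real.sin_add_pi]
  ext i; fin_cases i
  · simp
  · simp; ring
  · simp; ring

/-- conjugation of a diagonal map by the half rotations -/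
noncomputable def cj (r : Fin 3 → ℝ) (h : ∀ i, r i ≠ 0) (t : ℝ) : E3 ≃L[ℝ] E3 :=
  (hrot t).trans ((dia r h).trans (hrot t).symm)

theorem cj_per (r : Fin 3 → ℝ) (h : ∀ i, r i ≠ 0) (t : ℝ) (z : E3) :
    cj r h (t + 1) z = cj r h t z := by
  simp only [cj, ContinuousLinearEquiv.trans_apply]
  rw [ContinuousLinearEquiv.symm_apply_eq, hrot_add_one, hrot_add_one]
  rw [ContinuousLinearEquiv.apply_symm_apply, dia_apply, dia_apply]
  ext i; fin_cases i <;> simp

theorem cj_end (h : ∀ i, (![-1, -1, 1] : Fin 3 → ℝ) i ≠ 0) (t : ℝ) (z : E3) :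
    cj ![-1, -1, 1] h t z = rotB Real.pi (std 1 t z) := by
  simp only [cj, ContinuousLinearEquiv.trans_apply]
  rw [ContinuousLinearEquiv.symm_apply_eq, rotB_pi, dia_apply, hrot_apply', hrot_apply',
    std_one_apply', Real.cos_two_mul, Real.sin_two_mul]
  have hc : Real.cos (Real.pi * t) ^ 2 + Real.sin (Real.pi * t) ^ 2 = 1 :=
    Real.cos_sq_add_sin_sq _
  generalize Real.cos (Real.pi * t) = C at *
  generalize Real.sin (Real.pi * t) = D at *
  ext i; fin_cases i
  · simp
  · simp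
    linear_combination (2 * C * z 1) * hc
  · simp
    linear_combination (-2 * C * z 2) * hc

theorem cj_smooth {V : Type*} [NormedAddCommGroup V] [NormedSpace ℝ V] {r : V → Fin 3 → ℝ}
    (h : ∀ v i, r v i ≠ 0) (hr : ∀ i, ContDiff ℝ ∞ fun v => r v i) {f : V → ℝ}
    (hf : ContDiff ℝ ∞ f) : ContDiff ℝ ∞ fun q : V × E3 => cj (r q.1) (h q.1) (f q.1) q.2 := by
  have hR : ContDiff ℝ ∞ fun q : V × E3 => hrot (f q.1) q.2 :=
    fam_pre (P := hrot) hrot_smooth hf
  have hRs := fam_symm (P := fun v : V => hrot (f v)) hR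
  have hD := contDiff_dia h hr
  exact fam_comp (P := fun v : V => (dia (r v) (h v)).trans (hrot (f v)).symm)
    (Q := fun v : V => hrot (f v))
    (fam_comp (P := fun v : V => (hrot (f v)).symm) (Q := fun v : V => dia (r v) (h v)) hRs hD) hR

/-- interpolation of the signs -/
noncomputable def bs (b : Fin 3 → ℝ) (τ : ℝ) (i : Fin 3) : ℝ :=
  (1 - Real.smoothTransition τ) * b i + Real.smoothTransition τ * (![-1, -1, 1] : Fin 3 → ℝ) i

theorem bs_ne {b : Fin 3 → ℝ} (b0 : b 0 < 0) (b1 : b 1 < 0) (b2 : 0 < b 2) (τ : ℝ) (i : Fin 3) :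
    bs b τ i ≠ 0 := by
  have h0 := Real.smoothTransition.nonneg τ
  have h1 := Real.smoothTransition.le_one τ
  have key : ∀ x y : ℝ, 0 < x → 0 < y →
      0 < (1 - Real.smoothTransition τ) * x + Real.smoothTransition τ * y := by
    intro x y hx hy
    rcases h1.eq_or_lt with h | h
    · rw [h]; simpa using hy
    · have := mul_pos (sub_pos.2 h) hx
      have := mul_nonneg h0 hy.le
      linarith
  unfold bs
  fin_cases i
  · have := key (-b 0) 1 (by linarith) one_pos
    simp only [Fin.zero_eta, Matrix.cons_val_zero]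
    intro h; linarith
  · have := key (-b 1) 1 (by linarith) one_pos
    simp only [Fin.mk_one, Matrix.cons_val_one, Matrix.cons_val_zero]
    intro h; linarith
  · have := key (b 2) 1 b2 one_pos
    simp only [Fin.reduceFinMk, Matrix.cons_val]
    intro h; linarith

theorem bs_smooth (b : Fin 3 → ℝ) (i : Fin 3) : ContDiff ℝ ∞ fun τ => bs b τ i := by
  unfold bs
  exact ((contDiff_const.sub Real.smoothTransition.contDiff).mul contDiff_const).add
    (Real.smoothTransition.contDiff.mul contDiff_const)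

theorem cj_congr {r r' : Fin 3 → ℝ} (h : ∀ i, r i ≠ 0) (h' : ∀ i, r' i ≠ 0) (e : r = r') (t : ℝ)
    (z : E3) : cj r h t z = cj r' h' t z := by
  subst e; rfl

theorem cj_hom {b : Fin 3 → ℝ} (b0 : b 0 < 0) (b1 : b 1 < 0) (b2 : 0 < b 2) (hb : ∀ i, b i ≠ 0) :
    Hom (cj b hb) (std 1) := by
  have he : ∀ i, (![-1, -1, 1] : Fin 3 → ℝ) i ≠ 0 := by
    intro i; fin_cases i <;> simp
  have hs0 : Real.smoothTransition 0 = 0 := Real.smoothTransition.zero
  have hs1 : Real.smoothTransition 1 = 1 := Real.smoothTransition.one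
  have h1 : LoopHom (cj b hb) (cj ![-1, -1, 1] he) := by
    refine ⟨fun t τ => cj (bs b τ) (bs_ne b0 b1 b2 τ) t, ?_, ?_, ?_, ?_⟩
    · refine (fam2_iff (fun t τ => cj (bs b τ) (bs_ne b0 b1 b2 τ) t)).2 ?_
      exact cj_smooth (r := fun v : ℝ × ℝ => bs b v.2) (fun v => bs_ne b0 b1 b2 v.2)
        (fun i => (bs_smooth b i).comp contDiff_snd) (f := fun v : ℝ × ℝ => v.1) contDiff_fst
    · intro t τ z
      exact cj_per _ _ t z
    · intro t z
      apply cj_congr
      funext i
      simp [bs, hs0]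
    · intro t z
      apply cj_congr
      funext i
      simp [bs, hs1]
  have h2 : LoopHom (cj ![-1, -1, 1] he) (std 1) := by
    refine ⟨fun t τ => (std 1 t).trans (rotB (Real.pi * (1 - τ))), ?_, ?_, ?_, ?_⟩
    · refine (fam2_iff (fun t τ => (std 1 t).trans (rotB (Real.pi * (1 - τ))))).2 ?_
      have hB : ContDiff ℝ ∞ fun q : (ℝ × ℝ) × E3 => rotB (Real.pi * (1 - q.1.2)) q.2 :=
        fam_pre (P := rotB) rotB_smooth (f := fun v : ℝ × ℝ => Real.pi * (1 - v.2))
          (contDiff_const.mul (contDiff_const.sub contDiff_snd))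
      have hS : ContDiff ℝ ∞ fun q : (ℝ × ℝ) × E3 => std 1 q.1.1 q.2 :=
        fam_pre (P := std 1) (isLoop_std 1).smooth (f := fun v : ℝ × ℝ => v.1) contDiff_fst
      exact fam_comp (P := fun v : ℝ × ℝ => rotB (Real.pi * (1 - v.2)))
        (Q := fun v : ℝ × ℝ => std 1 v.1) hB hS
    · intro t τ z
      simp only [ContinuousLinearEquiv.trans_apply, (isLoop_std 1).per]
    · intro t z
      simp only [ContinuousLinearEquiv.trans_apply, sub_zero, mul_one]
      exact (cj_end he t z).symm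
    · intro t z
      simp only [ContinuousLinearEquiv.trans_apply, sub_self, mul_zero]
      exact rotB_zero _
  exact (Hom.of h1).trans (Hom.of h2)

/-- `|x|^{-t}` -/
noncomputable def rr (x t : ℝ) : ℝ := Real.exp (-(t * Real.log |x|))

theorem rr_ne (x t : ℝ) : rr x t ≠ 0 := (Real.exp_pos _).ne'

theorem rr_add_one {x : ℝ} (hx : x ≠ 0) (t : ℝ) : |x| * rr x (t + 1) = rr x t := by
  unfold rr
  rw [show -((t + 1) * Real.log |x|) = -(t * Real.log |x|) + -Real.log |x| by ring,
    Real.exp_add, Real.exp_neg (Real.log |x|), Real.exp_log (abs_pos.2 hx)]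
  have := (abs_pos.2 hx).ne'
  field_simp

theorem exists_khat {A g : Matrix (Fin 3) (Fin 3) ℤ} {S : E3 ≃L[ℝ] E3} {a b : Fin 3 → ℝ}
    (h : SignPair A g S a b) (G : E3 ≃L[ℝ] E3) (hG : ∀ z, G z = act g z) :
    ∃ Ph : ℝ → E3 ≃L[ℝ] E3, IsFraming A Ph ∧ Hom (cp (iv Ph) (cp (fun _ => G) Ph)) (std 1) := by
  have hne : ∀ t i, rr (a i) t ≠ 0 := fun t i => rr_ne _ _
  let Ph : ℝ → E3 ≃L[ℝ] E3 := fun t =>
    (hrot t).trans ((dia (fun i => rr (a i) t) (hne t)).trans S)
  have hPh : ∀ t z, Ph t z = S (pt (rr (a 0) t * hrot t z 0) (rr (a 1) t * hrot t z 1)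
      (rr (a 2) t * hrot t z 2)) := fun t z => rfl
  have hb : ∀ i, b i ≠ 0 := by
    intro i; fin_cases i
    · exact h.b0.ne
    · exact h.b1.ne
    · exact h.b2.ne'
  refine ⟨Ph, ⟨?_, ?_⟩, ?_⟩
  · have hD := contDiff_dia (V := ℝ) (r := fun t i => rr (a i) t) hne (fun i => by
      unfold rr
      exact (Real.contDiff_exp.comp (contDiff_id.mul contDiff_const).neg))
    exact fam_comp (P := fun t : ℝ => (dia (fun i => rr (a i) t) (hne t)).trans S) (Q := hrot)
      (fam_comp (P := fun _ : ℝ => S) (Q := fun t : ℝ => dia (fun i => rr (a i) t) (hne t))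
        (fam_const S) hD) hrot_smooth
  · intro t z
    rw [hPh, hPh, h.hA]
    congr 1
    have e0 := rr_add_one h.a0.ne' t
    have e1 := rr_add_one h.a1.ne t
    have e2 := rr_add_one h.a2.ne t
    rw [abs_of_pos h.a0] at e0
    rw [abs_of_neg h.a1] at e1
    rw [abs_of_neg h.a2] at e2
    rw [← e0, ← e1, ← e2, hrot_add_one]
    ext i; fin_cases i
    · simp; ring
    · simp; ring
    · simp; ring
  · have e : cp (iv Ph) (cp (fun _ => G) Ph) = cj b hb := by
      apply loop_ext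
      intro t z
      simp only [cp_apply, iv_apply]
      rw [ContinuousLinearEquiv.symm_apply_eq, hG, hPh, h.hg, hPh]
      have hj : hrot t (cj b hb t z) = dia b hb (hrot t z) := by
        simp [cj]
      rw [hj, dia_apply]
      congr 1
      ext i; fin_cases i
      · simp; ring
      · simp; ring
      · simp; ring
    rw [e]
    exact cj_hom h.b0 h.b1 h.b2 hb

end Pool.Agent.UNQ
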