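import Pool.Agent.UNQ.Cls
import Pool.Agent.UNQ.Khat

/-!
# UNQ/Kg: `P⁻¹ g P` is homotopic to the rotation loop for every framing

`L = Ph⁻¹ P` is a loop; `P⁻¹ g P = L⁻¹ (Ph⁻¹ g Ph) L`.  If `det L < 0` replace `L` by `-L` (this does
not change `L⁻¹ K L`).  By `cls`, `L ~ 1` or `L ~ std 1`, and `L⁻¹ K L ~ L'⁻¹ (std 1) L' = std 1`
(`Hom.cp_left`, `Hom.cp_right`, `Hom.iv`, `std_add`).
-/

open scoped ContDiff

namespace Pool.Agent.UNQ
open Pool.Agent.CSG

theorem hom_conj {L L' K K' : ℝ → E3 ≃L[ℝ] E3} (hL : IsLoop L) (hK : IsLoop K)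
    (h : Hom L L') (h' : Hom K K') : Hom (cp (iv L) (cp K L)) (cp (iv L') (cp K' L')) := by
  have hL' : IsLoop L' := h.isLoop hL
  have hK' : IsLoop K' := h'.isLoop hK
  have h1 : Hom (cp K L) (cp K' L') := (h.cp_left hK).trans (h'.cp_right hL')
  exact (h1.cp_left (isLoop_iv hL)).trans (h.iv.cp_right (isLoop_cp hK' hL'))

theorem neg_conj (L K : ℝ → E3 ≃L[ℝ] E3) :
    cp (iv (cp L fun _ => ContinuousLinearEquiv.neg ℝ))
      (cp K (cp L fun _ => ContinuousLinearEquiv.neg ℝ)) = cp (iv L) (cp K L) := by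
  apply loop_ext
  intro t z
  have h1 : cp (iv (cp L fun _ => ContinuousLinearEquiv.neg ℝ))
      (cp K (cp L fun _ => ContinuousLinearEquiv.neg ℝ)) t z =
      (cp L (fun _ => ContinuousLinearEquiv.neg ℝ) t).symm (-(K t (L t z))) := by
    simp only [cp_apply, iv_apply, ContinuousLinearEquiv.neg_apply, map_neg]
  rw [h1, ContinuousLinearEquiv.symm_apply_eq]
  simp only [cp_apply, iv_apply, ContinuousLinearEquiv.neg_apply, map_neg,
    ContinuousLinearEquiv.apply_symm_apply]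

theorem isLoop_negR {L : ℝ → E3 ≃L[ℝ] E3} (hL : IsLoop L) :
    IsLoop (cp L fun _ => ContinuousLinearEquiv.neg ℝ) :=
  isLoop_cp hL ⟨fam_const _, fun _ _ => rfl⟩

theorem conj_std {L K : ℝ → E3 ≃L[ℝ] E3} (hL : IsLoop L) (hK : Hom K (std 1)) :
    Hom (cp (iv L) (cp K L)) (std 1) := by
  have hKl : IsLoop K := hK.symm.isLoop (isLoop_std 1)
  have key : ∀ L : ℝ → E3 ≃L[ℝ] E3, IsLoop L → PosDet L → Hom (cp (iv L) (cp K L)) (std 1) := by
    intro L hL hpos
    rcases cls hL hpos with h | h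
    · have := hom_conj hL hKl h hK
      have e : cp (iv one) (cp (std 1) one) = std 1 := by
        apply loop_ext
        intro t z
        simp only [cp_apply, iv_apply]
        rw [ContinuousLinearEquiv.symm_apply_eq]
        rfl
      rwa [e] at this
    · have := hom_conj hL hKl h hK
      have e : cp (iv (std 1)) (cp (std 1) (std 1)) = std 1 := by
        rw [← cp_assoc, iv_cp, one_cp]
      rwa [e] at this
  rcases sign_cases hL.smooth with hpos | hpos
  · exact key L hL hpos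
  · have := key _ (isLoop_negR hL) hpos
    rwa [neg_conj] at this

theorem hom_kg {A g : Matrix (Fin 3) (Fin 3) ℤ} {S : E3 ≃L[ℝ] E3} {a b : Fin 3 → ℝ}
    (h : SignPair A g S a b) (hA : IsUnit A.det) (G : E3 ≃L[ℝ] E3) (hG : ∀ z, G z = act g z)
    {P : ℝ → E3 ≃L[ℝ] E3} (hP : IsFraming A P) :
    Hom (cp (iv P) (cp (fun _ => G) P)) (std 1) := by
  obtain ⟨Ph, hPh, hK⟩ := exists_khat h G hG
  have hL := isLoop_quot hPh hP (act_injective hA)
  have := conj_std hL hK
  have e : cp (iv (cp (iv Ph) P)) (cp (cp (iv Ph) (cp (fun _ => G) Ph)) (cp (iv Ph) P)) =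
      cp (iv P) (cp (fun _ => G) P) := by
    apply loop_ext
    intro t z
    simp only [cp_apply, iv_apply]
    rw [ContinuousLinearEquiv.symm_apply_eq]
    simp only [cp_apply, iv_apply, ContinuousLinearEquiv.apply_symm_apply]
  rwa [e] at this

end Pool.Agent.UNQ
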