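import Pool.Agent.UNQ.Base

/-!
# UNQ/Lift: smooth logarithms of nowhere vanishing functions and homotopies of rotation loops

`exists_log`: `α : R → C` smooth, nowhere zero.  `ℓ t = log (α 0) + ∫₀ᵗ α'/α`; it is smooth
(`α'/α` is smooth, fundamental theorem of calculus; `contDiff_infty_iff_deriv` or
`contDiff_succ_iff_deriv`), and `(α exp (-ℓ))' = 0`, so `α exp (-ℓ)` is constant `= 1`.
`exists_log_per`: if `α` is 1-periodic then `exp (ℓ (t+1) - ℓ t) = 1`, so `ℓ (t+1) - ℓ t` is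
`2 π i k(t)`, `k(t)` an integer, continuous in `t` hence constant (or: its derivative
`ℓ'(t+1) - ℓ'(t) = (α'/α)(t+1) - (α'/α)(t) = 0`).
`rot_hom`: the homotopy `rotE (exp ((1-τ) ℓ t + τ ℓ' t))`.
-/

open scoped ContDiff
open Complex (I)

namespace Pool.Agent.UNQ
open Pool.Agent.CSG

theorem Lift_aux {α : ℝ → ℂ} (hα : ContDiff ℝ ∞ α) (h0 : ∀ t, α t ≠ 0) :
    ∃ l : ℝ → ℂ, ContDiff ℝ ∞ l ∧ (∀ t, Complex.exp (l t) = α t) ∧
      ∀ t, HasDerivAt l (deriv α t / α t) t := by
  have hd : ContDiff ℝ ∞ (deriv α) := (contDiff_infty_iff_deriv.1 hα).2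
  have hq : ContDiff ℝ ∞ fun t => deriv α t / α t := by
    simp only [div_eq_mul_inv]
    exact hd.mul (hα.inv h0)
  set l : ℝ → ℂ := fun t => Complex.log (α 0) + ∫ s in (0 : ℝ)..t, deriv α s / α s with hl
  have hder : ∀ t, HasDerivAt l (deriv α t / α t) t := by
    intro t
    have h1 : HasDerivAt (fun u => ∫ s in (0 : ℝ)..u, deriv α s / α s) (deriv α t / α t) t :=
      intervalIntegral.integral_hasDerivAt_right (hq.continuous.intervalIntegrable _ _)
        hq.continuous.aestronglyMeasurable.stronglyMeasurableAtFilter hq.continuous.continuousAt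
    exact h1.const_add _
  have hls : ContDiff ℝ ∞ l := by
    rw [contDiff_infty_iff_deriv]
    refine ⟨fun t => (hder t).differentiableAt, ?_⟩
    have : deriv l = fun t => deriv α t / α t := funext fun t => (hder t).deriv
    rw [this]
    exact hq
  refine ⟨l, hls, ?_, hder⟩
  have hdα : ∀ t, HasDerivAt α (deriv α t) t := fun t =>
    ((contDiff_infty_iff_deriv.1 hα).1 t).hasDerivAt
  have hg : ∀ t, HasDerivAt (fun t => α t * Complex.exp (-l t)) 0 t := by
    intro t
    have h1 : HasDerivAt (fun t => α t * Complex.exp (-l t))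
        (deriv α t * Complex.exp (-l t) + α t * (Complex.exp (-l t) * -(deriv α t / α t))) t :=
      (hdα t).mul (hder t).neg.cexp
    have h2 : deriv α t * Complex.exp (-l t) + α t * (Complex.exp (-l t) * -(deriv α t / α t)) =
        0 := by
      have := h0 t
      have h3 : α t * (deriv α t / α t) = deriv α t := by field_simp
      linear_combination (-Complex.exp (-l t)) * h3
    rwa [h2] at h1
  have hc : ∀ t, α t * Complex.exp (-l t) = α 0 * Complex.exp (-l 0) := fun t =>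
    is_const_of_deriv_eq_zero (fun t => (hg t).differentiableAt) (fun t => (hg t).deriv) t 0
  have h00 : l 0 = Complex.log (α 0) := by simp [hl]
  intro t
  have h := hc t
  rw [h00, Complex.exp_neg, Complex.exp_neg, Complex.exp_log (h0 0), mul_inv_cancel₀ (h0 0)] at h
  have he := Complex.exp_ne_zero (l t)
  field_simp at h
  exact h.symm

theorem exists_log {α : ℝ → ℂ} (hα : ContDiff ℝ ∞ α) (h0 : ∀ t, α t ≠ 0) :
    ∃ l : ℝ → ℂ, ContDiff ℝ ∞ l ∧ ∀ t, Complex.exp (l t) = α t := by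
  obtain ⟨l, h1, h2, -⟩ := Lift_aux hα h0
  exact ⟨l, h1, h2⟩

theorem exists_log_per {α : ℝ → ℂ} (hα : ContDiff ℝ ∞ α) (h0 : ∀ t, α t ≠ 0)
    (hper : ∀ t, α (t + 1) = α t) :
    ∃ l : ℝ → ℂ, ContDiff ℝ ∞ l ∧ (∀ t, Complex.exp (l t) = α t) ∧
      ∃ k : ℤ, ∀ t, l (t + 1) = l t + 2 * Real.pi * k * I := by
  obtain ⟨l, h1, h2, h3⟩ := Lift_aux hα h0
  refine ⟨l, h1, h2, ?_⟩
  have hdp : ∀ t, deriv α (t + 1) = deriv α t := by
    intro t
    have : (fun t => α (t + 1)) = α := funext hper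
    rw [← deriv_comp_add_const, this]
  have hg : ∀ t, HasDerivAt (fun t => l (t + 1) - l t) 0 t := by
    intro t
    have h4 : HasDerivAt (fun t => l (t + 1) - l t)
      (deriv α (t + 1) / α (t + 1) - deriv α t / α t) t :=
      ((h3 (t + 1)).comp_add_const t 1).sub (h3 t)
    rwa [hdp, hper, sub_self] at h4
  have hc : ∀ t, l (t + 1) - l t = l (0 + 1) - l 0 := fun t =>
    is_const_of_deriv_eq_zero (fun t => (hg t).differentiableAt) (fun t => (hg t).deriv) t 0
  have he : Complex.exp (l (0 + 1) - l 0) = 1 := by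
    rw [Complex.exp_sub, h2, h2, hper, div_self (h0 0)]
  obtain ⟨k, hk⟩ := Complex.exp_eq_one_iff.1 he
  refine ⟨k, fun t => ?_⟩
  have := hc t
  rw [hk] at this
  rw [← sub_add_cancel (l (t + 1)) (l t), this]
  ring

/-- Two rotation loops `cmul (exp l)`, `cmul (exp l')` with the same winding number are
homotopic. -/
theorem rot_hom {P Q : ℝ → E3 ≃L[ℝ] E3} {l l' : ℝ → ℂ} (k : ℤ) (hl : ContDiff ℝ ∞ l)
    (hl' : ContDiff ℝ ∞ l') (h : ∀ t, l (t + 1) = l t + 2 * Real.pi * k * I)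
    (h' : ∀ t, l' (t + 1) = l' t + 2 * Real.pi * k * I)
    (hP : ∀ t z, P t z = cmul (Complex.exp (l t)) z)
    (hQ : ∀ t z, Q t z = cmul (Complex.exp (l' t)) z) : LoopHom P Q := by
  refine ⟨fun t τ => rotE (Complex.exp ((1 - τ : ℝ) * l t + (τ : ℝ) * l' t))
    (Complex.exp_ne_zero _), ?_, ?_, ?_, ?_⟩
  · simp only [rotE_apply]
    refine contDiff_cmul ?_ (contDiff_snd.comp contDiff_snd)
    refine ContDiff.cexp (ContDiff.add (ContDiff.mul ?_ (hl.comp contDiff_fst))
      (ContDiff.mul ?_ (hl'.comp contDiff_fst)))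
    · exact Complex.ofRealCLM.contDiff.comp
        (contDiff_const.sub (contDiff_fst.comp contDiff_snd))
    · exact Complex.ofRealCLM.contDiff.comp (contDiff_fst.comp contDiff_snd)
  · intro t τ z
    simp only [rotE_apply]
    congr 1
    rw [h, h', show ((1 - τ : ℝ) : ℂ) * (l t + 2 * Real.pi * k * I) +
      (τ : ℂ) * (l' t + 2 * Real.pi * k * I) = (((1 - τ : ℝ) : ℂ) * l t + (τ : ℂ) * l' t) +
        k * (2 * Real.pi * I) by push_cast; ring, Complex.exp_add,
      Complex.exp_int_mul_two_pi_mul_I, mul_one]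
  · intro t z
    simp [hP]
  · intro t z
    simp [hQ]

/-- A loop of the form `cmul (α t)` is homotopic to a standard loop. -/
theorem hom_std {P : ℝ → E3 ≃L[ℝ] E3} {α : ℝ → ℂ} (hα : ContDiff ℝ ∞ α)
    (hper : ∀ t, α (t + 1) = α t) (h0 : ∀ t, α t ≠ 0) (hP : ∀ t z, P t z = cmul (α t) z) :
    ∃ k : ℤ, LoopHom P (std k) := by
  obtain ⟨l, h1, h2, k, h3⟩ := exists_log_per hα h0 hper
  refine ⟨k, rot_hom (l := l) (l' := fun t => (2 * Real.pi * k * t : ℝ) * I) k h1 ?_ h3 ?_ ?_ ?_⟩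
  · exact (Complex.ofRealCLM.contDiff.comp (contDiff_const.mul contDiff_id)).mul contDiff_const
  · intro t
    push_cast; ring
  · intro t z
    rw [h2, hP]
  · intro t z
    rfl

end Pool.Agent.UNQ
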