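import Pool.Agent.CSG.FunBasic

/-!
# UNQ/Uni: the carrier of Cappell-Shaneson data is determined by the matrix and the framing

If `D : CSData A X` and `D' : CSData A X'` have the same framing `P`, then
`H (x, t) ↦ H' (x, t)`, `j (y, v) ↦ j' (y, v)` is a diffeomorphism `X → X'`.
-/

open scoped Manifold ContDiff Topology
open Set Filter

namespace Pool.Agent.UNQ
open Pool.Agent.CSG

section
variable {A : Matrix (Fin 3) (Fin 3) ℤ}
variable {X : Type*} [TopologicalSpace X] [ChartedSpace E4 X]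
variable {X' : Type*} [TopologicalSpace X'] [ChartedSpace E4 X']

/-- reduction of the time coordinate to `[0, 1)` -/
theorem H_zpow (D : CSData A X) {φ : Equiv.Perm E3} (hφ : ∀ x, φ x = act A x) (hM : Mono A φ)
    (k : ℤ) : ∀ x t, ¬ IsLat x → D.H (x, t + k) = D.H ((φ ^ k) x, t) := by
  have hsymm : ∀ x, ¬ IsLat x → ¬ IsLat (φ.symm x) := by
    intro x hx h
    apply hx
    rw [← hM.isLat] at h
    simpa using h
  induction k using Int.induction_on with
  | zero => intro x t _; simp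
  | succ i ih =>
    intro x t hx
    have hx' : ¬ IsLat (act A x) := by rw [← hφ, hM.isLat]; exact hx
    have e : t + ((i : ℤ) + 1 : ℤ) = (t + (i : ℤ)) + 1 := by push_cast; ring
    rw [e, ← D.H_mon x _ hx, ih _ t hx', ← hφ, zpow_add_one, Equiv.Perm.mul_apply]
  | pred i ih =>
    intro x t hx
    have e : (t + ((-(i : ℤ) - 1 : ℤ) : ℝ)) + 1 = t + ((-(i : ℤ) : ℤ) : ℝ) := by push_cast; ring
    have hx' := hsymm x hx
    have h1 : D.H (x, t + ((-(i : ℤ) - 1 : ℤ) : ℝ)) =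
        D.H (φ.symm x, t + ((-(i : ℤ) : ℤ) : ℝ)) := by
      rw [← e, ← D.H_mon _ _ hx', ← hφ, Equiv.apply_symm_apply]
    rw [h1, ih _ t hx', zpow_sub_one, Equiv.Perm.mul_apply, Equiv.Perm.inv_def]

theorem same_class (hA : IsUnit A.det) (D : CSData A X) (D' : CSData A X') {x y : E3} {s t : ℝ}
    (hx : ¬ IsLat x) (hy : ¬ IsLat y) (h : D.H (x, s) = D.H (y, t)) :
    D'.H (x, s) = D'.H (y, t) := by
  obtain ⟨φ, hφ, hM⟩ := exists_actE hA
  have key : ∀ (k : ℤ) (z : E3), ¬ IsLat z → ¬ IsLat ((φ ^ k) z) := by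
    intro k z hz
    obtain ⟨B, hB⟩ := hM.zpow k
    rwa [hB.isLat]
  have es : Int.fract s + (⌊s⌋ : ℤ) = s := Int.fract_add_floor s
  have et : Int.fract t + (⌊t⌋ : ℤ) = t := Int.fract_add_floor t
  have h1 := H_zpow D hφ hM ⌊s⌋ x (Int.fract s) hx
  have h2 := H_zpow D hφ hM ⌊t⌋ y (Int.fract t) hy
  have h1' := H_zpow D' hφ hM ⌊s⌋ x (Int.fract s) hx
  have h2' := H_zpow D' hφ hM ⌊t⌋ y (Int.fract t) hy
  rw [es] at h1 h1'
  rw [et] at h2 h2'
  rw [h1, h2] at h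
  obtain ⟨e, m, hm⟩ := D.H_inj _ _ _ _ (key _ _ hx) (key _ _ hy) (Int.fract_nonneg _)
    (Int.fract_lt_one _) (Int.fract_nonneg _) (Int.fract_lt_one _) h
  rw [h1', h2', hm, D'.H_per _ _ _ (key _ _ hx), e]

open Classical in
/-- the comparison map -/
noncomputable def cmp (D : CSData A X) (D' : CSData A X') (p : X) : X' :=
  if h : ∃ q : E3 × ℝ, ¬ IsLat q.1 ∧ p = D.H q then D'.H h.choose
  else if h' : ∃ y, p = D.j (y, 0) then D'.j (h'.choose, 0)
  else D'.H (0, 0)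

theorem cmp_H (hA : IsUnit A.det) (D : CSData A X) (D' : CSData A X') {x : E3} (t : ℝ)
    (hx : ¬ IsLat x) : cmp D D' (D.H (x, t)) = D'.H (x, t) := by
  have h : ∃ q : E3 × ℝ, ¬ IsLat q.1 ∧ D.H (x, t) = D.H q := ⟨(x, t), hx, rfl⟩
  unfold cmp
  rw [dif_pos h]
  have h1 := h.choose_spec
  exact (same_class hA D D' (x := x) (s := t) (y := h.choose.1) (t := h.choose.2) hx h1.1 h1.2).symm

theorem cmp_j0 (D : CSData A X) (D' : CSData A X') (y : S2) :
    cmp D D' (D.j (y, 0)) = D'.j (y, 0) := by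
  have h : ¬ ∃ q : E3 × ℝ, ¬ IsLat q.1 ∧ D.j (y, 0) = D.H q := by
    rintro ⟨q, hq, he⟩
    exact D.disj y q.1 q.2 hq he
  have h' : ∃ y', D.j (y, 0) = D.j (y', 0) := ⟨y, rfl⟩
  unfold cmp
  rw [dif_neg h, dif_pos h']
  have h1 := h'.choose_spec
  rw [← (D.j_inj _ _ _ _ (by simp) (by simp) h1).1]

theorem cmp_j (hA : IsUnit A.det) (D : CSData A X) (D' : CSData A X')
    (hP : ∀ t z, D'.P t z = D.P t z) (y : S2) {v : ℂ} (hv : ‖v‖ < 1) :
    cmp D D' (D.j (y, v)) = D'.j (y, v) := by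
  rcases eq_or_ne v 0 with rfl | h0
  · exact cmp_j0 D D' y
  set t : ℝ := Complex.arg v / (2 * Real.pi) with ht
  have hpi : (2 * Real.pi : ℝ) ≠ 0 := by positivity
  have e : v = (‖v‖ : ℂ) * Complex.exp (2 * Real.pi * t * Complex.I) := by
    have h1 : ((2 : ℂ) * Real.pi * t * Complex.I) = (Complex.arg v : ℂ) * Complex.I := by
      rw [ht]
      have : (2 * (Real.pi : ℂ)) ≠ 0 := by exact_mod_cast hpi
      push_cast
      rw [mul_div_cancel₀ _ this]
    rw [h1, Complex.norm_mul_exp_arg_mul_I]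
  have hr : 0 < ‖v‖ := norm_pos_iff.2 h0
  have hz : ‖(‖v‖ • (y : E3))‖ = ‖v‖ := by
    rw [norm_smul, norm_norm]
    have : ‖(y : E3)‖ = 1 := by simp
    rw [this, mul_one]
  have hne : ‖v‖ • (y : E3) ≠ 0 := by
    rw [← norm_pos_iff, hz]; exact hr
  have hlat := D.P_avoid t (‖v‖ • (y : E3)) hne (by rw [hz]; exact hv)
  have g := D.glue t ‖v‖ y hr hv
  have g' := D'.glue t ‖v‖ y hr hv
  rw [← e] at g g'
  rw [g, g', cmp_H hA D D' t hlat, hP]

theorem cmp_cmp (hA : IsUnit A.det) (D : CSData A X) (D' : CSData A X') (p : X) :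
    cmp D' D (cmp D D' p) = p := by
  rcases D.cover p with ⟨y, rfl⟩ | ⟨x, t, hx, rfl⟩
  · rw [cmp_j0, cmp_j0]
  · rw [cmp_H hA D D' t hx, cmp_H hA D' D t hx]

theorem cmp_ld (hA : IsUnit A.det) (D : CSData A X) (D' : CSData A X')
    (hP : ∀ t z, D'.P t z = D.P t z) (p : X) :
    IsLocalDiffeomorphAt (𝓡 4) (𝓡 4) ∞ (cmp D D') p := by
  rcases D.cover p with ⟨y, rfl⟩ | ⟨x, t, hx, rfl⟩
  · refine ld_of_comp_left (f := D.j) (x := (y, (0 : ℂ))) ?_ (D.j_loc y 0 (by simp))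
    refine ld_congr (D'.j_loc y 0 (by simp)) ?_
    have ho : IsOpen {q : S2 × ℂ | ‖q.2‖ < 1} := isOpen_lt (continuous_norm.comp continuous_snd)
      continuous_const
    have : {q : S2 × ℂ | ‖q.2‖ < 1} ∈ 𝓝 (y, (0 : ℂ)) := ho.mem_nhds (by simp)
    filter_upwards [this] with q hq
    exact cmp_j hA D D' hP q.1 hq
  · refine ld_of_comp_left (f := D.H) (x := (x, t)) ?_ (D.H_loc x t hx)
    refine ld_congr (D'.H_loc x t hx) ?_
    have ho : IsOpen {q : E3 × ℝ | ¬ IsLat q.1} :=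
      (isClosed_isLat.preimage continuous_fst).isOpen_compl
    filter_upwards [ho.mem_nhds (show (x, t) ∈ {q : E3 × ℝ | ¬ IsLat q.1} from hx)] with q hq
    exact cmp_H hA D D' q.2 hq

/-- The carrier of Cappell-Shaneson data is determined by the matrix and the framing. -/
theorem diffeo_of_same (hA : IsUnit A.det) (D : CSData A X) (D' : CSData A X')
    (hP : ∀ t z, D'.P t z = D.P t z) : Nonempty (X ≃ₘ^∞⟮𝓡 4, 𝓡 4⟯ X') :=
  ⟨{ toEquiv := ⟨cmp D D', cmp D' D, cmp_cmp hA D D', cmp_cmp hA D' D⟩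
     contMDiff_toFun := fun p => (cmp_ld hA D D' hP p).contMDiffAt
     contMDiff_invFun := fun p => (cmp_ld hA D' D (fun t z => (hP t z).symm) p).contMDiffAt }⟩

end

end Pool.Agent.UNQ
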